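import Pool.Agent.Helper68.VN.GoalsA

/-!
# Project HC (MP_a41896_nt), packet BLKX
-/

set_option autoImplicit false

open MvPolynomial

namespace Pool.Agent.Helper68.VN

open WeierstrassCurve Height
open Pool.Agent.Helper29.BL Pool.Agent.Helper92.Ru Pool.Agent.Helper42.SG
open Pool.Agent.Helper77.SGC (N0)

theorem t_BLKX : BLKX := by
  classical
  intro K _ _ σ _ _ W B B' D d c J f Df M p e S T _ gr E r hS hC A _ _ X Ψ X0 Ψ0 l x hΨ hΨ0
  have h1 : blkB (mapS A W) M e l X Ψ X0 Ψ0 x =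
      ∏ i, ∑ μ : Fin 2, ∑ s ∈ Finset.range (N0 M e + 1), ∑ g ∈ Finset.range (2 * M + 1),
        algebraMap K A (S i e (l i) μ s g (x i).1.val (x i).2.val) *
          ((Ψ i * Ψ0 i) ^ μ.val * X i ^ s * X0 i ^ g) := by
    unfold blkB
    refine Finset.prod_congr rfl fun i _ => ?_
    refine hS.exp i e (l i) (x i).1.val (x i).2.val (x i).1.isLt
      (Nat.lt_succ_iff.mp (x i).2.isLt) A (X i) (X0 i) (Ψ i * Ψ0 i) ?_
    rw [mul_pow, hΨ i, hΨ0 i]
  have h2 : (∏ i, ∑ μ : Fin 2, ∑ s ∈ Finset.range (N0 M e + 1),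
      ∑ g ∈ Finset.range (2 * M + 1),
        algebraMap K A (S i e (l i) μ s g (x i).1.val (x i).2.val) *
          ((Ψ i * Ψ0 i) ^ μ.val * X i ^ s * X0 i ^ g)) =
      ∑ μ : σ → Fin 2, ∑ s ∈ box σ (N0 M e), ∑ g ∈ box σ (2 * M),
        algebraMap K A (∏ i, S i e (l i) (μ i) (s i) (g i) (x i).1.val (x i).2.val) *
          ((∏ i, (Ψ i * Ψ0 i) ^ (μ i).val) * (∏ i, X i ^ s i) * ∏ i, X0 i ^ g i) := by
    rw [Finset.prod_univ_sum, Fintype.piFinset_univ]
    refine Finset.sum_congr rfl fun μ _ => ?_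
    rw [Finset.prod_univ_sum]
    refine Finset.sum_congr rfl fun s _ => ?_
    rw [Finset.prod_univ_sum]
    refine Finset.sum_congr rfl fun g _ => ?_
    rw [Finset.prod_mul_distrib, Finset.prod_mul_distrib, Finset.prod_mul_distrib, map_prod]
  rw [h1, h2]
  refine Finset.sum_congr rfl fun μ _ => ?_
  have hX : ∀ s ∈ box σ (N0 M e), (∏ i, X i ^ s i : A) =
      ∑ t, algebraMap K A (r t s) * aeval X (E t) := by
    intro s hs
    have hs' : ∀ i, s i ≤ N0 M e := fun i =>
      Nat.lt_succ_iff.mp (Finset.mem_range.mp (Fintype.mem_piFinset.mp hs i))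
    have h3 := congrArg (aeval X) (hC.exp s hs')
    rw [map_prod, map_sum] at h3
    simp only [map_pow, aeval_X, map_mul, aeval_C] at h3
    exact h3
  calc ∑ s ∈ box σ (N0 M e), ∑ g ∈ box σ (2 * M),
        algebraMap K A (∏ i, S i e (l i) (μ i) (s i) (g i) (x i).1.val (x i).2.val) *
          ((∏ i, (Ψ i * Ψ0 i) ^ (μ i).val) * (∏ i, X i ^ s i) * ∏ i, X0 i ^ g i)
      = ∑ s ∈ box σ (N0 M e), ∑ g ∈ box σ (2 * M), ∑ t,
        ((∏ i, (Ψ i * Ψ0 i) ^ (μ i).val) * aeval X (E t)) *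
          (algebraMap K A (r t s * ∏ i, S i e (l i) (μ i) (s i) (g i) (x i).1.val
            (x i).2.val) * ∏ i, X0 i ^ g i) := by
        refine Finset.sum_congr rfl fun s hs => Finset.sum_congr rfl fun g _ => ?_
        rw [hX s hs, Finset.mul_sum, Finset.sum_mul, Finset.mul_sum]
        refine Finset.sum_congr rfl fun t _ => ?_
        rw [map_mul]
        ring
    _ = ∑ t, ∑ g ∈ box σ (2 * M), ∑ s ∈ box σ (N0 M e),
        ((∏ i, (Ψ i * Ψ0 i) ^ (μ i).val) * aeval X (E t)) *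
          (algebraMap K A (r t s * ∏ i, S i e (l i) (μ i) (s i) (g i) (x i).1.val
            (x i).2.val) * ∏ i, X0 i ^ g i) := by
        rw [Finset.sum_congr rfl fun s _ => Finset.sum_comm, Finset.sum_comm]
        exact Finset.sum_congr rfl fun t _ => Finset.sum_comm
    _ = _ := by
        refine Finset.sum_congr rfl fun t _ => ?_
        rw [Finset.mul_sum]
        refine Finset.sum_congr rfl fun g _ => ?_
        unfold Gam
        rw [map_sum, Finset.sum_mul, Finset.mul_sum]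

end Pool.Agent.Helper68.VN
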