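import Pool.Agent.Helper68.VN.GoalsN
import Pool.Agent.Helper90.SGT.NQA
import Pool.Agent.Helper62.SGB.EPHI

/-!
# Project HC (MP_a41896_nt), packet NAB
-/

set_option autoImplicit false

open MvPolynomial

namespace Pool.Agent.Helper68.VN

open WeierstrassCurve Height Height.AdmissibleAbsValues
open Pool.Agent.Helper29.BL Pool.Agent.Helper92.Ru Pool.Agent.Helper42.SG Pool.Agent.Helper65.SG
open Pool.Agent.Helper90.SGT

theorem one_le_sqB {n : ℕ} (hn : 1 ≤ n) (e : Fin n → ℕ) : 1 ≤ sqB e := by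
  unfold sqB
  calc 1 ≤ 4 ^ e ⟨0, hn⟩ := Nat.one_le_pow _ _ (by norm_num)
    _ ≤ _ := Finset.single_le_sum (f := fun j => 4 ^ e j) (fun _ _ => Nat.zero_le _)
      (Finset.mem_univ _)

theorem card_Ix (σ : Type) [Fintype σ] [DecidableEq σ] (n M δ : ℕ) (hn : 1 ≤ n)
    (e : Fin n → ℕ) :
    Fintype.card (Ix σ n M δ e) ≤
      (4 ^ Fintype.card σ * ((M + 1) ^ Fintype.card σ * (δ + 1) ^ Fintype.card σ)) ^ sqB e := by
  set m := Fintype.card σ with hm
  have h1 : Fintype.card (Ix σ n M δ e) = (∏ j : Fin n, (4 ^ e j * (M + 1)) ^ m) * δ ^ m := by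
    simp only [Ix, Ax, Fintype.card_prod, Fintype.card_pi, Fintype.card_fun, Fintype.card_fin]
    simp [hm]
  have h2 : (∏ j : Fin n, (4 ^ e j * (M + 1)) ^ m) ≤ (4 ^ m * (M + 1) ^ m) ^ sqB e := by
    unfold sqB
    rw [← Finset.prod_pow_eq_pow_sum]
    refine Finset.prod_le_prod' fun j _ => ?_
    rw [mul_pow, mul_pow]
    refine Nat.mul_le_mul ?_ (Nat.le_self_pow (by positivity) _)
    rw [← pow_mul, ← pow_mul, mul_comm m]
    exact Nat.pow_le_pow_right (by norm_num)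
      (Nat.mul_le_mul_right _ (Nat.lt_pow_self (by norm_num)).le)
  have h3 : δ ^ m ≤ ((δ + 1) ^ m) ^ sqB e :=
    (Nat.pow_le_pow_left (Nat.le_succ δ) m).trans
      (Nat.le_self_pow (by have := one_le_sqB hn e; omega) _)
  rw [h1]
  calc (∏ j : Fin n, (4 ^ e j * (M + 1)) ^ m) * δ ^ m
      ≤ (4 ^ m * (M + 1) ^ m) ^ sqB e * ((δ + 1) ^ m) ^ sqB e := Nat.mul_le_mul h2 h3
    _ = _ := by rw [← mul_pow]; ring

theorem plc_pow' {K : Type} [Field K] [AdmissibleAbsValues K] {B : AbsoluteValue K ℝ → ℝ}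
    (h : PlC B) (k : ℕ) : PlC fun v => B v ^ k := by
  have e : (fun v : AbsoluteValue K ℝ => B v ^ k) = fun v => ∏ _i ∈ Finset.range k, B v := by
    funext v
    rw [Finset.prod_const, Finset.card_range]
  rw [e]
  exact Pool.Agent.Helper62.SGB.plc_prod _ (fun _ => B) (fun _ _ => h)

theorem t_NAB : NAB := by
  classical
  intro K _ _ σ _ _ W n M δ hn
  set m := Fintype.card σ with hm
  set D : ℕ := 4 ^ m * ((M + 1) ^ m * (δ + 1) ^ m) with hD
  have hD1 : 1 ≤ D := Nat.one_le_iff_ne_zero.mpr (by positivity)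
  have hD1' : (1 : ℝ) ≤ (D : ℝ) := by exact_mod_cast hD1
  have hβ1 : ∀ v : AbsoluteValue K ℝ, 1 ≤ ∏ i, bet (W i) v := fun v =>
    Finset.prod_induction (fun i => bet (W i) v) (fun x => 1 ≤ x)
      (fun a b ha hb => one_le_mul_of_one_le_of_one_le ha hb) le_rfl
      (fun i _ => one_le_bet (W i) v)
  have hβ : ∀ (v : AbsoluteValue K ℝ) (i : σ), bet (W i) v ≤ ∏ i, bet (W i) v := by
    intro v i
    rw [← Finset.mul_prod_erase Finset.univ (fun i => bet (W i) v) (Finset.mem_univ i)]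
    refine le_mul_of_one_le_right (zero_le_one.trans (one_le_bet _ v)) ?_
    exact Finset.prod_induction (fun i => bet (W i) v) (fun x => 1 ≤ x)
      (fun a b ha hb => one_le_mul_of_one_le_of_one_le ha hb) le_rfl
      (fun i _ => one_le_bet (W i) v)
  refine ⟨fun v => cst v D * (cst v 40 * (∏ i, bet (W i) v) ^ 2) ^ (M * m), ?_, ?_⟩
  · have p1 : PlC (K := K) fun v => ∏ i, bet (W i) v :=
      Pool.Agent.Helper62.SGB.plc_prod _ (fun i v => bet (W i) v)
        (fun i _ => ⟨fun v => one_le_bet (W i) v, FS_log_bet (W i)⟩)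
    exact Pool.Agent.Helper62.SGB.plc_mul (Pool.Agent.Helper62.SGB.plc_cst hD1')
      (plc_pow' (Pool.Agent.Helper62.SGB.plc_mul (Pool.Agent.Helper62.SGB.plc_cst (by norm_num))
        (plc_pow' p1 2)) _)
  · intro e c v s A _ _ N X Ψ X0 Ψ0 hN hs hc hX hX0
    obtain ⟨Γ, hΓ⟩ : ∃ Γ, Γ = (∏ i, bet (W i) v) ^ 2 := ⟨_, rfl⟩
    have hΓ1 : 1 ≤ Γ := by
      rw [hΓ]
      exact one_le_pow₀ (hβ1 v)
    have hc0 : 1 ≤ cst v 40 * Γ := one_le_mul_of_one_le_of_one_le (one_le_cst v (by norm_num)) hΓ1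
    have hG : ∀ i, Gd (K := K) N (mapS A W i) Γ := by
      intro i
      rw [hΓ]
      exact gd_map hN (W i) _ (hβ v i)
    have hlaw : ∀ j i, N (law (mapS A W i) (e j) false (X j i) (X0 i) (Ψ j i * Ψ0 i)).1
          ((cst v 40 * Γ) ^ (4 ^ e j)) ∧
        N (law (mapS A W i) (e j) false (X j i) (X0 i) (Ψ j i * Ψ0 i)).2
          ((cst v 40 * Γ) ^ (4 ^ e j)) := by
      intro j i
      have hη : N (Ψ j i * Ψ0 i) 1 := by
        have := hN.mul _ _ _ _ (hX j i).2 (hX0 i).2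
        rwa [mul_one] at this
      exact law_bd hN (hG i) hΓ1 (hX j i).1 (hX0 i).1 hη (e j)
    have hblk : ∀ (α : Ix σ n M δ e) (j : Fin n),
        N (blkB (mapS A W) M (e j) (fun _ => false) (X j) (Ψ j) X0 Ψ0 (α.1 j))
          ((cst v 40 * Γ) ^ (4 ^ e j * M * m)) := by
      intro α j
      have h := n_prod hN Finset.univ (fun i : σ => X j i ^ (α.1 j i).1.val *
        ((law (mapS A W i) (e j) false (X j i) (X0 i) (Ψ j i * Ψ0 i)).1 ^
            (M - (α.1 j i).2.val) *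
          (law (mapS A W i) (e j) false (X j i) (X0 i) (Ψ j i * Ψ0 i)).2 ^ (α.1 j i).2.val))
        (fun _ => (cst v 40 * Γ) ^ (4 ^ e j * M)) (fun i _ => by
          have hlt := (α.1 j i).2.isLt
          have h1 := n_pow hN (hX j i).1 (α.1 j i).1.val
          rw [one_pow] at h1
          obtain ⟨h2, h3⟩ := hlaw j i
          have h4 := hN.mul _ _ _ _ h1 (hN.mul _ _ _ _ (n_pow hN h2 (M - (α.1 j i).2.val))
            (n_pow hN h3 (α.1 j i).2.val))
          rw [one_mul, ← pow_add, Nat.sub_add_cancel (by omega), ← pow_mul] at h4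
          exact h4)
      rw [Finset.prod_const, Finset.card_univ, ← pow_mul] at h
      exact h
    have hterm : ∀ α : Ix σ n M δ e, N (algebraMap K A (c α) *
        (∏ j, blkB (mapS A W) M (e j) (fun _ => false) (X j) (Ψ j) X0 Ψ0 (α.1 j)) *
        ∏ i, X0 i ^ (α.2 i).val)
        (s * (cst v 40 * Γ) ^ (M * m * sqB e)) := by
      intro α
      have t1 : N (algebraMap K A (c α)) s := hN.mono _ _ _ (hN.const _) (hc α)
      have t2 : N (∏ i, X0 i ^ (α.2 i).val) 1 := by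
        have h := n_prod hN Finset.univ (fun i : σ => X0 i ^ (α.2 i).val)
          (fun _ => 1) (fun i _ => by
            have h1 := n_pow hN (hX0 i).1 (α.2 i).val
            rwa [one_pow] at h1)
        rwa [Finset.prod_const_one] at h
      have t3 := n_prod hN Finset.univ (fun j : Fin n =>
          blkB (mapS A W) M (e j) (fun _ => false) (X j) (Ψ j) X0 Ψ0 (α.1 j))
        (fun j => (cst v 40 * Γ) ^ (4 ^ e j * M * m)) (fun j _ => hblk α j)
      have t4 : ∏ j : Fin n, (cst v 40 * Γ) ^ (4 ^ e j * M * m) =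
          (cst v 40 * Γ) ^ (M * m * sqB e) := by
        rw [Finset.prod_pow_eq_pow_sum]
        congr 1
        unfold sqB
        rw [Finset.mul_sum]
        exact Finset.sum_congr rfl fun j _ => by ring
      rw [t4] at t3
      have h := hN.mul _ _ _ _ (hN.mul _ _ _ _ t1 t3) t2
      rwa [mul_one] at h
    have hT0 : 0 ≤ s * (cst v 40 * Γ) ^ (M * m * sqB e) :=
      mul_nonneg hs (pow_nonneg (by linarith) _)
    have hsum := mb_sum hN (Finset.univ : Finset (Ix σ n M δ e)) _ _ hT0 (fun α _ => hterm α)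
    have hP : N (P0B W n M δ e c X Ψ X0 Ψ0)
        (cst v ((Finset.univ : Finset (Ix σ n M δ e)).card : ℝ) *
        (s * (cst v 40 * Γ) ^ (M * m * sqB e))) := hsum
    refine hN.mono _ _ _ hP ?_
    show _ ≤ s * (cst v D * (cst v 40 * (∏ i, bet (W i) v) ^ 2) ^ (M * m)) ^ sqB e
    rw [← hΓ]
    have hcard : cst v ((Finset.univ : Finset (Ix σ n M δ e)).card : ℝ) ≤
        cst v ((D : ℝ) ^ sqB e) := by
      refine cst_mono v ?_
      rw [Finset.card_univ]
      exact_mod_cast card_Ix σ n M δ hn e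
    calc cst v ((Finset.univ : Finset (Ix σ n M δ e)).card : ℝ) *
          (s * (cst v 40 * Γ) ^ (M * m * sqB e))
        ≤ cst v ((D : ℝ) ^ sqB e) * (s * (cst v 40 * Γ) ^ (M * m * sqB e)) :=
          mul_le_mul_of_nonneg_right hcard hT0
      _ = s * (cst v D ^ sqB e * ((cst v 40 * Γ) ^ (M * m)) ^ sqB e) := by
          rw [cst_pow, pow_mul (cst v 40 * Γ)]; ring
      _ = s * (cst v D * (cst v 40 * Γ) ^ (M * m)) ^ sqB e := by
          rw [mul_pow (cst v (D : ℝ)) ((cst v 40 * Γ) ^ (M * m))]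

end Pool.Agent.Helper68.VN
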