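import Pool.Agent.Helper42.SG.GoalsP
import Pool.Agent.Helper12.SGB.All
import Pool.Agent.Helper39.SGE.HTL
import Pool.Agent.Helper31.SGE.CVAL

/-!
# Project HC (MP_a41896_nt): the old goals `HHO` and `LAWH`
-/

set_option autoImplicit false

namespace Pool.Agent.Helper68.VN

open WeierstrassCurve Height Height.AdmissibleAbsValues
open Pool.Agent.Helper29.BL Pool.Agent.Helper92.Ru Pool.Agent.Helper42.SG

theorem t_LAWH : LAWH := by
  intro K _ _ _ W _ P Q e hP hQ hne
  obtain ⟨h1, h2, h3, -, -⟩ :=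
    Pool.Agent.Helper12.SGB.th_ELAW K W P Q e two_ne_zero hP hQ hne
  refine Pool.Agent.Helper39.SGE.htl K _ _ (xc ((2 ^ e) • P - Q)) h1 (fun h6 => ?_)
    (fun h6 => ?_)
  · by_cases h7 : (2 ^ e) • P - Q = 0
    · exact absurd (h3 h7) h6
    · exact (h2 h7).2
  · by_cases h7 : (2 ^ e) • P - Q = 0
    · rw [h7]
      rfl
    · exact absurd h6 (h2 h7).1

/-- Monotonicity of `PS`, inequalities at the places only. -/
theorem PS_mono' {K : Type} [Field K] [AdmissibleAbsValues K] {f g : AbsoluteValue K ℝ → ℝ}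
    (hf : FS f) (hg : FS g)
    (h : ∀ v, (v ∈ archAbsVal (K := K) ∨ v ∈ nonarchAbsVal (K := K)) → f v ≤ g v) :
    PS f ≤ PS g := by
  unfold PS
  refine add_le_add ?_ ?_
  · exact Multiset.sum_map_le_sum_map _ _ fun v hv => h v (Or.inl hv)
  · exact finsum_le_finsum' hf hg fun v => h v.val (Or.inr v.property)

theorem t_HHO : HHO := by
  intro K _ _ ι _ c A hc hA hint hh
  rw [← PS_log_iSup hc]
  have h1 : PS (fun v : AbsoluteValue K ℝ => Real.log (⨆ i, v (c i))) ≤
      PS (fun v : AbsoluteValue K ℝ => Real.log (cst v (Real.exp A))) := by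
    refine PS_mono' (FS_log_iSup hc) (FS_log_cst _) fun v hv => ?_
    haveI : Nonempty ι := by
      by_contra h
      rw [not_nonempty_iff] at h
      exact hc (funext fun i => h.elim i)
    refine Real.log_le_log (iSup_abv_pos v hc) (ciSup_le fun i => ?_)
    exact Pool.Agent.Helper31.SGE.cval K (c i) A hA (hint i) (hh i) v hv
  refine h1.trans ((PS_log_cst (Real.one_le_exp hA)).trans ?_)
  rw [Real.log_exp, NumberField.totalWeight_eq_finrank]

end Pool.Agent.Helper68.VN
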