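import Pool.Agent.Helper68.VN.Defs
import Pool.Agent.Helper65.SG.Goals

/-!
# Project HC, theorem PG (MP_a41896_nt), module N: non-vanishing, norm polynomial, the Wronskian, the zero estimate

Sections 5.1 - 5.4 and 6 of `MP_a41896_hc_helper60.md`.  All goals are independent (named goals may be hypotheses of other goals as
indicated).  The landed proofs of the two-factor case are in `Pool/Agent/*/SG2/` (NZFT, NQAT, NQBT, NQWT, NQNT, NQET, NQVT, NQT, QIXT) and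
`Pool/Agent/*/SGT/`, `Pool/Agent/Helper65/SG/` (NQD, NQR, NQH).
-/

set_option autoImplicit false

open MvPolynomial

namespace Pool.Agent.Helper68.VN

open WeierstrassCurve Height
open Pool.Agent.Helper29.BL Pool.Agent.Helper92.Ru Pool.Agent.Helper42.SG
open Pool.Agent.Helper65.SG (NPol FRPO NQH)

noncomputable section

/-! ## Definitions -/

/-- all the variables: the `X_(ji)` and the `X_(0i)` -/
abbrev VV (σ : Type) (n : ℕ) : Type := (Fin n × σ) ⊕ σ

/-- the curve of a variable -/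
def cv {K : Type} [Field K] {σ : Type} (W : σ → Affine K) {n : ℕ} : VV σ n → Affine K :=
  Sum.elim (fun h => W h.2) W

/-- the polynomial ring in the `X_h` (`Sum.inl h`) and the `Ψ_h` (`Sum.inr h`), `h : VV σ n` -/
abbrev GRB (K : Type) [Field K] (σ : Type) (n : ℕ) : Type := MvPolynomial (VV σ n ⊕ VV σ n) K

/-- `P^0` over a `K`-algebra -/
def P0B {K : Type} [Field K] {A : Type} [CommRing A] [Algebra K A] {σ : Type} [Fintype σ]
    [DecidableEq σ] (W : σ → Affine K) (n M δ : ℕ) (e : Fin n → ℕ) (c : Ix σ n M δ e → K)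
    (X Ψ : Fin n → σ → A) (X0 Ψ0 : σ → A) : A :=
  PB (mapS A W) n M δ e (fun α => algebraMap K A (c α)) (fun _ _ => false) X Ψ X0 Ψ0

/-- `P^0` at the generic point with the signs `ε` on the `Ψ_(ji)` -/
def PeB {K : Type} [Field K] {σ : Type} [Fintype σ] [DecidableEq σ] (W : σ → Affine K)
    (n M δ : ℕ) (e : Fin n → ℕ) (c : Ix σ n M δ e → K) (ε : Fin n × σ → ℤˣ) : GRB K σ n :=
  P0B W n M δ e c (fun j i => X (Sum.inl (Sum.inl (j, i))))
    (fun j i => (((ε (j, i) : ℤˣ) : ℤ) : GRB K σ n) * X (Sum.inr (Sum.inl (j, i))))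
    (fun i => X (Sum.inl (Sum.inr i))) (fun i => X (Sum.inr (Sum.inr i)))

/-- the product over all sign vectors -/
def QhB {K : Type} [Field K] {σ : Type} [Fintype σ] [DecidableEq σ] (W : σ → Affine K)
    (n M δ : ℕ) (e : Fin n → ℕ) (c : Ix σ n M δ e → K) : GRB K σ n :=
  ∏ ε : Fin n × σ → ℤˣ, PeB W n M δ e c ε

/-- the reduction `X^a Ψ^b ↦ X^a ∏ B(X_h)^(b_h / 2)`, any finite index type, curves `w h` -/
def redV {K : Type} [Field K] {V : Type} [Fintype V] (w : V → Affine K)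
    (F : MvPolynomial (V ⊕ V) K) : MvPolynomial V K :=
  ∑ m ∈ F.support, C (coeff m F) * ∏ h : V,
    (X h ^ m (Sum.inl h) * Bf ((w h).map (algebraMap K (MvPolynomial V K))) (X h) ^
      (m (Sum.inr h) / 2))

/-- the degree of `F` in `(X_h, Ψ_h)` with weights `1, 2` is at most `d` -/
def WDV {K : Type} [Field K] {V : Type} (h : V) (d : ℕ) (F : MvPolynomial (V ⊕ V) K) : Prop :=
  ∀ m ∈ F.support, m (Sum.inl h) + 2 * m (Sum.inr h) ≤ d

/-- the number of sign vectors -/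
def nsg (σ : Type) [Fintype σ] (n : ℕ) : ℕ := 2 ^ (n * Fintype.card σ)

/-- the partial degrees of the norm polynomial -/
def ddB (σ : Type) [Fintype σ] (n M δ : ℕ) (e : Fin n → ℕ) : VV σ n → ℕ :=
  Sum.elim (fun h => nsg σ n * ((2 * M + 1) * 4 ^ e h.1)) (fun _ => nsg σ n * (2 * n * M + δ))

/-! ## Non-vanishing -/

/-- **NZHB** (5.1, nonvanishing at a given `x_0`). Hypothesis allowed: NZV (`Helper42.SG`).
PROOF. As NZFT (landed: `Pool/Agent/Helper60/SG2/NZFT.lean`). `Q_i ≠ 0` := the point of the curve `mapS Ω W i` over `Ω` with `x = X0 i`, `ψ = Ψ0 i` (a point with `x = X0 i` exists, `Ω` is algebraically closed; change the sign if necessary). Array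
`a(α) := ∑_β c(α, β) ∏ X0^β`, not identically zero. `PB` at `(X, Ψ)` is `∑_α a(α) ∏_(j,i) X^l (L_1)^(M-m) (L_2)^m`. Choose the points `P_h`, `h = (j, i)`, one after the other (induction over the finite set of the `h`, e.g. over a list of all `h` or `Finset.induction_on`)
such that for every sign vector on the variables already chosen the partially evaluated array (indexed by the indices of the other variables) is not zero: in every step there are finitely many non-zero arrays; for each choose a value of the other indices for which it is non-zero as an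
array in the indices of `h`, and apply NZV to this finite family (exponent `e j`, curve `i`, `Q = Q_i`). The sign is put on `Ψ_h = ψ(P_h)`. A good general lemma: for a finite type `V` of variables and arrays on `∀ h : V, (index type of h)`. -/
def NZHB : Prop :=
  ∀ (K : Type) [Field K] [NumberField K] (σ : Type) [Fintype σ] [DecidableEq σ]
    (W : σ → Affine K), (∀ i, (W i).IsElliptic) →
    ∀ (n M δ : ℕ) (e : Fin n → ℕ) (c : Ix σ n M δ e → K) (Ω : Type) [Field Ω] [Algebra K Ω]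
      [IsAlgClosed Ω] (X0 Ψ0 : σ → Ω), (∀ i, Ψ0 i ^ 2 = Bf (mapS Ω W i) (X0 i)) →
      (∃ α : ∀ j : Fin n, Ax σ M (e j),
        ∑ β : σ → Fin δ, algebraMap K Ω (c (α, β)) * ∏ i, X0 i ^ (β i).val ≠ 0) →
      ∃ X Ψ : Fin n → σ → Ω, OnB W X Ψ X0 Ψ0 ∧ ∀ ε : Fin n × σ → ℤˣ,
        P0B W n M δ e c X (fun j i => (((ε (j, i) : ℤˣ) : ℤ) : Ω) * Ψ j i) X0 Ψ0 ≠ 0

/-! ## The norm polynomial -/

/-- **NAB**: a crude bound for `P^0` in every norm frame in which all coordinates have norm `≤ 1` (the points need not be on the curves). As `Helper65.SG.NQA`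
(its docstring has the proof; landed NQAT: `Pool/Agent/Helper92/SG2/NQAT.lean`): the two components of every law have norm `≤ c_v^(4^(e j))`, `c_v = cst v 100 * (∏_i bet (W i) v)^2` or similar; number of terms `≤ C^(sqB e)`. -/
def NAB : Prop :=
  ∀ (K : Type) [Field K] [NumberField K] (σ : Type) [Fintype σ] [DecidableEq σ]
    (W : σ → Affine K) (n M δ : ℕ), 1 ≤ n →
    ∃ B : AbsoluteValue K ℝ → ℝ, PlC B ∧ ∀ (e : Fin n → ℕ) (c : Ix σ n M δ e → K)
      (v : AbsoluteValue K ℝ) (s : ℝ) (A : Type) [CommRing A] [Algebra K A] (N : A → ℝ → Prop)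
      (X Ψ : Fin n → σ → A) (X0 Ψ0 : σ → A), NFr v N → 0 ≤ s → (∀ α, v (c α) ≤ s) →
      (∀ j i, N (X j i) 1 ∧ N (Ψ j i) 1) → (∀ i, N (X0 i) 1 ∧ N (Ψ0 i) 1) →
      N (P0B W n M δ e c X Ψ X0 Ψ0) (s * B v ^ sqB e)

/-- **NBB**: the norm of `QhB`. Hypotheses allowed: FRPO, NAB. As NQBT (`Pool/Agent/Helper1/SG2/NQBT.lean`): each of the `nsg σ n` factors has norm `≤ s B_v^(sq)` (`±1` has norm `≤ 1`). -/
def NBB : Prop :=
  ∀ (K : Type) [Field K] [NumberField K] (σ : Type) [Fintype σ] [DecidableEq σ]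
    (W : σ → Affine K) (n M δ : ℕ), 1 ≤ n →
    ∃ B : AbsoluteValue K ℝ → ℝ, PlC B ∧ ∀ (e : Fin n → ℕ) (c : Ix σ n M δ e → K)
      (v : AbsoluteValue K ℝ) (s : ℝ), 0 ≤ s → (∀ α, v (c α) ≤ s) →
      NPol v (QhB W n M δ e c) (s ^ nsg σ n * B v ^ sqB e)

/-- **NWB**: weighted degrees of `QhB`. As `Helper65.SG.NQW` (its docstring; landed NQWT: `Pool/Agent/Helper41/SG2/NQWT.lean`): the law of the variable `(j, i)` has weighted degree `≤ 2·4^(e j)` in `(X_(ji), Ψ_(ji))` and `≤ 2` in `(X_(0i), Ψ_(0i))`. -/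
def NWB : Prop :=
  ∀ (K : Type) [Field K] (σ : Type) [Fintype σ] [DecidableEq σ] (W : σ → Affine K)
    (n M δ : ℕ) (e : Fin n → ℕ) (c : Ix σ n M δ e → K) (h : VV σ n),
    WDV h (ddB σ n M δ e h) (QhB W n M δ e c)

/-- **NNB**: naturality of `P^0` under algebra homomorphisms. As NQNT (`Pool/Agent/Helper43/SG2/NQNT.lean`). -/
def NNB : Prop :=
  ∀ (K : Type) [Field K] (σ : Type) [Fintype σ] [DecidableEq σ] (W : σ → Affine K)
    (n M δ : ℕ) (e : Fin n → ℕ) (c : Ix σ n M δ e → K) (A A' : Type) [CommRing A]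
    [CommRing A'] [Algebra K A] [Algebra K A'] (φ : A →ₐ[K] A') (X Ψ : Fin n → σ → A)
    (X0 Ψ0 : σ → A),
    φ (P0B W n M δ e c X Ψ X0 Ψ0) = P0B W n M δ e c (fun j i => φ (X j i))
      (fun j i => φ (Ψ j i)) (fun i => φ (X0 i)) (fun i => φ (Ψ0 i))

/-- **NEB**: evenness. Hypothesis allowed: NNB. As `Helper65.SG.NQE` (its docstring; landed NQET: `Pool/Agent/Helper99/SG2/NQET.lean`): `P^0` depends on the `Ψ` only through the products `Ψ_(ji) Ψ_(0i)`; changing the sign of `Ψ_(ji)` permutes the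
factors of `QhB`, and changing the sign of `Ψ_(0i)` has the same effect as changing the signs of all `Ψ_(ji)`, `j : Fin n`. -/
def NEB : Prop :=
  ∀ (K : Type) [Field K] [NumberField K] (σ : Type) [Fintype σ] [DecidableEq σ]
    (W : σ → Affine K) (n M δ : ℕ) (e : Fin n → ℕ) (c : Ix σ n M δ e → K),
    ∀ m ∈ (QhB W n M δ e c).support, ∀ h : VV σ n, Even (m (Sum.inr h))

/-- **NVB**: evaluation of `redV F` for `F` with even exponents of the `Ψ_h`, at points of the curves. As `Helper65.SG.NQV` (landed: `Pool/Agent/Helper14/SGT/NQV.lean`, NQVT: `Pool/Agent/Helper66/SG2/NQVT.lean`). -/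
def NVB : Prop :=
  ∀ (K : Type) [Field K] (V : Type) [Fintype V] (w : V → Affine K)
    (F : MvPolynomial (V ⊕ V) K) (A : Type) [CommRing A] [Algebra K A] (X Ψ : V → A),
    (∀ h, Ψ h ^ 2 = Bf ((w h).map (algebraMap K A)) (X h)) →
    (∀ m ∈ F.support, ∀ h, Even (m (Sum.inr h))) →
    aeval X (redV w F) = aeval (Sum.elim X Ψ) F

/-- **NDB**: degrees of `redV F`: `X_h^a B(X_h)^(b/2)` has degree `≤ a + 3 (b/2) ≤ a + 2b` in `X_h`. As `Helper65.SG.NQD` (landed in `Pool/Agent/*/SGT/NQD.lean`). -/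
def NDB : Prop :=
  ∀ (K : Type) [Field K] (V : Type) [Fintype V] [DecidableEq V] (w : V → Affine K)
    (F : MvPolynomial (V ⊕ V) K) (h : V) (d : ℕ), WDV h d F → (redV w F).degreeOf h ≤ d

/-- **NRB**: the norm of `redV F`. Hypothesis allowed: FRPO. As `Helper65.SG.NQR` (its docstring; landed in `Pool/Agent/*/SGT/NQR.lean`), `B v := (cst v 8 * ∏_h bet (w h) v) ^ |V|`. -/
def NRB : Prop :=
  ∀ (K : Type) [Field K] [NumberField K] (V : Type) [Fintype V] (w : V → Affine K),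
    ∃ B : AbsoluteValue K ℝ → ℝ, PlC B ∧ ∀ (F : MvPolynomial (V ⊕ V) K)
      (v : AbsoluteValue K ℝ) (T : ℝ) (k : ℕ),
      NPol v F T → (∀ m ∈ F.support, ∀ h, m (Sum.inr h) ≤ 2 * k) →
      NPol v (redV w F) (T * B v ^ k)

/-- **NHB**: height of a polynomial from bounds of its coefficients at all places, any finite type of variables. Hypothesis allowed: NQH (`Helper65.SG`; the same for `Fin k`): rename with `Fintype.equivFin V`; `PH (rename e p) = PH p` for an equivalence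
(`coeff` of a renamed polynomial, `support_rename_of_injective`, `mulHeight` invariant under reindexing, `Height.mulHeight_comp_equiv`-type lemma; see `Pool.Agent.Helper32.SGA.ren`). -/
def NHB : Prop :=
  ∀ (K : Type) [Field K] [NumberField K] (B : AbsoluteValue K ℝ → ℝ), PlC B →
    ∃ C : ℝ, 0 ≤ C ∧ ∀ (V : Type) [Fintype V] (N M : ℕ) (A : ℝ) (p : MvPolynomial V K), 0 ≤ A →
      (∀ v : AbsoluteValue K ℝ, v ∈ AdmissibleAbsValues.archAbsVal ∨
          v ∈ AdmissibleAbsValues.nonarchAbsVal → ∀ m,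
        v (coeff m p) ≤ cst v (Real.exp A) ^ M * B v ^ N) →
      Real.log (PH p) ≤ C * (M * A + N)

/-- **NQX** (5.2, the norm polynomial). Hypotheses allowed: NZHB, FRPO, NBB, NWB, NNB, NEB, NVB, NDB, NRB, NHB, NQH. As NQT (landed: `Pool/Agent/Helper4/SG2/NQT.lean`) and `Pool/Agent/Helper65/SG/NQ.lean`. `Q := redV (cv W) (QhB ..)`.
At a point of an algebra `A` with `OnB`: `Q(X, X0) = ∏_ε P^0(X, εΨ; X0, Ψ0)` (NVB, NNB; `aeval` at the generic point), and the factor `ε = 1` is `P^0(X, Ψ; X0, Ψ0)`. NONZERO: if `∑_β c(α, β) x0^β ≠ 0` for some `α`, then NZHB with `Ω` = algebraic closure, `X0 = x0`, `Ψ0 i` a square root of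
`B(x0 i)`: the value of `Q` at `(X, x0)` is a product of non-zero numbers; it is also the value of `spc x0 Q` at `X`, so `spc x0 Q ≠ 0`. HEIGHT: NBB, NRB (`k`: the exponents `m (inr h) ≤ ddB ..` by NWB, all `≤ C sqB e`), FRPO (coefficients), NHB, second part of NQH for `v (c α) ≤ cst v (exp A)`. -/
def NQX : Prop :=
  ∀ (K : Type) [Field K] [NumberField K] (σ : Type) [Fintype σ] [DecidableEq σ]
    (W : σ → Affine K), (∀ i, (W i).IsElliptic) → ∀ n M δ : ℕ, 1 ≤ n → 1 ≤ M → 1 ≤ δ →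
      ∃ C : ℝ, 0 ≤ C ∧ ∀ (e : Fin n → ℕ) (c : Ix σ n M δ e → K) (A : ℝ), 0 ≤ A →
      (∀ α, IsIntegral ℤ (c α)) → (∀ α, NumberField.house (c α) ≤ Real.exp A) →
      ∃ Q : MvPolynomial ((Fin n × σ) ⊕ σ) K, (∀ h, Q.degreeOf h ≤ ddB σ n M δ e h) ∧
        Real.log (PH Q) ≤ C * (sqB e + A) ∧
        (∀ x0 : σ → K, (∃ α : ∀ j : Fin n, Ax σ M (e j),
            ∑ β : σ → Fin δ, c (α, β) * ∏ i, x0 i ^ (β i).val ≠ 0) → spc x0 Q ≠ 0) ∧
        ∀ (A : Type) [CommRing A] [Algebra K A] (X Ψ : Fin n → σ → A) (X0 Ψ0 : σ → A),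
          OnB W X Ψ X0 Ψ0 → ∃ g : A,
            aeval (Sum.elim (fun h : Fin n × σ => X h.1 h.2) X0) Q =
              P0B W n M δ e c X Ψ X0 Ψ0 * g

/-- **QIXB** (5.3, the index). No hypotheses. As QIXT (landed: `Pool/Agent/Helper26/SG2/QIXT.lean`): `Q(ξ_h + 4ψ_h² τ_h)` is `shiftP ξ Q` with `t_h = 4 ψ_h² τ_h`, `4 ψ_h² ≠ 0`; all terms of `f * g` have weight `≥ θ`. -/
def QIXB : Prop :=
  ∀ (K : Type) [Field K] [NumberField K] (σ : Type) [Fintype σ] (W : σ → Affine K) (n : ℕ)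
    (ξ ψ : Fin n → σ → K) (X Ψ : Fin n → σ → MvPowerSeries (Fin n × σ) K)
    (Q : MvPolynomial (Fin n × σ) K) (f g : MvPowerSeries (Fin n × σ) K)
    (d : Fin n × σ → ℕ) (θ : ℝ), TayB W ξ ψ X Ψ → (∀ j i, ψ j i ≠ 0) → (∀ h, 1 ≤ d h) →
    aeval (fun h : Fin n × σ => X h.1 h.2) Q = f * g →
    (∀ α, wt d α < θ → MvPowerSeries.coeff α f = 0) → IndGe d (fun h => ξ h.1 h.2) θ Q

/-! ## The Wronskian, the zero estimate -/

/-- the specialisation `X_t = η_t`, `t : τ` -/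
def spT {k : Type} [Field k] {σ τ : Type} (η : τ → k) :
    MvPolynomial (σ ⊕ τ) k →ₐ[k] MvPolynomial σ k := aeval (Sum.elim X fun t => C (η t))

/-- **WRZ** (5.4, elimination of the constant point by a Wronskian in the other variables). Hypotheses allowed: GenWron, DetHeight, WronDeg, HasseBasic (`Helper92.Ru`, all landed: `Pool/Agent/Helper92/Ru/GoalsR.lean`, proofs in `Pool/Agent/Helper92/Ru/AsmA.lean` and the files imported there).
PROOF. `s0 := (D + 1)^|τ|`. For `g : τ →₀ ℕ` let `A_g ∈ k[X_σ]` be the coefficient of `∏_t X_t^(g t)` in `Q` (`coeff m (A_g) = coeff (m on σ, g on τ) Q`; `A_g = 0` unless all `g t ≤ D`): `spT η Q = ∑_g C (∏ η^g) * A_g` (finite sum over the `g` in the box). Let `(A_(g_1), .., A_(g_s))` be a maximal `k`-linearly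
independent subfamily, `s ≤ s0`, `s ≥ 1` (`Q ≠ 0`): `spT η Q = ∑_(l) b_l A_(g_l)`, `b_l ∈ k`, and some `b_l0 ≠ 0` because `spT η Q ≠ 0`. GenWron: `μ_i`, `|μ_i| ≤ i < s`, `W := det (hasse (μ_i) (A_(g_l))) ≠ 0`.
INDEX: `b_l0 * W` is the determinant with the column `l0` replaced by `hasse (μ_i) (spT η Q)` (`Matrix.det_updateCol..`, `det_eq_of_forall_col_eq..`/multilinearity; `hasse` is linear). Each of these has index `≥ θ - ∑_h μ_i h / r h ≥ θ - s0/ρ` (`shiftP ξ (hasse μ p) = hasse μ (shiftP ξ p)`, the monomials of `hasse μ p` are `e - μ`),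
the other entries have index `≥ 0`; expand along the column `l0`; sums and products of polynomials: the index is `≥` the minimum, resp. the sum.
DEGREES: WronDeg. HEIGHT: `W` is the part of degree `0` in the variables `τ` of `det (hasse (cmb (μ_i) (g_l)) Q)`, because `hasse (μ, g) Q` specialised at `X_τ = 0` is `hasse μ (A_g)`; specialisation at `0` takes a subset of the coefficients, so `PH W ≤ PH (det ..)`
(`W ≠ 0`; `Height.mulHeight_comp_le`-type), and DetHeight: `PH (det ..) ≤ 2^((2 |σ ⊕ τ| + 1) R' s [k:ℚ]) PH Q ^ s`, `R' = max (R, D, s0)` (`s ≤ R' + 1`). So `C := (2 (|σ| + |τ|) + 1) (D + s0 + 1) [k:ℚ] log 2` works (`R' ≤ R (D + s0 + 1)` as `R ≥ 1`). (`s ≤ s0`, `log PH Q ≥ 0`.) -/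
def WRZ : Prop :=
  ∀ (k : Type) [Field k] [NumberField k] (σ τ : Type) [Fintype σ] [DecidableEq σ] [Fintype τ]
    [DecidableEq τ] (D : ℕ), ∃ (s0 : ℕ) (C : ℝ), 1 ≤ s0 ∧ 0 ≤ C ∧
    ∀ (Q : MvPolynomial (σ ⊕ τ) k) (η : τ → k) (R : ℕ) (r : σ → ℕ) (ξ : σ → k) (θ ρ : ℝ),
      1 ≤ R → (∀ h, Q.degreeOf (Sum.inl h) ≤ R) → (∀ t, Q.degreeOf (Sum.inr t) ≤ D) →
      0 < ρ → (∀ h, ρ ≤ r h) → spT η Q ≠ 0 → IndGe r ξ θ (spT η Q) →
      ∃ W : MvPolynomial σ k, W ≠ 0 ∧
        (∀ h, W.degreeOf h ≤ s0 * Q.degreeOf (Sum.inl h)) ∧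
        Real.log (PH W) ≤ s0 * (Real.log (PH Q) + C * R) ∧ IndGe r ξ (θ - s0 / ρ) W

/-- **BRU**: the block Roth lemma in the variables `Fin n × σ`. No hypotheses; from the landed `Pool.Agent.Helper92.PN.blockRoth_uniform` (`Pool/Agent/Helper92/PN/Cor.lean`) with `s = |σ|` by renaming: `(j, i) ↦ s * j + φ i`, `φ : σ ≃ Fin s` (`finProdFinEquiv`; if `s = 0` then `p` is a constant, of index `0`, contradiction).
`PH`, `degreeOf`, `IndGe` are invariant under renaming by an equivalence. -/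
def BRU : Prop :=
  ∀ (k : Type) [Field k] [NumberField k] (σ : Type) [Fintype σ] [DecidableEq σ] (n : ℕ)
    (ι : ℝ), 0 < ι → ∃ (D : ℕ) (Kc ω : ℝ), 1 ≤ Kc ∧ 0 < ω ∧ ω ≤ 1 ∧
    ∀ (d : Fin n → ℕ) (ξ : Fin n → σ → k) (H W : ℝ) (p : MvPolynomial (Fin n × σ) k),
      (∀ j, 1 ≤ d j ∧ (d j : ℝ) ≤ H) → (∀ j j', j < j' → (d j' : ℝ) ≤ ω * d j) → p ≠ 0 →
      0 < W → (∀ h, (p.degreeOf h : ℝ) ≤ d h.1 * W) → Real.log (PH p) ≤ H * W →
      IndGe (fun h : Fin n × σ => d h.1) (fun h => ξ h.1 h.2) (ι * W) p →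
      ∃ (j : Fin n) (f : MvPolynomial σ k), f ≠ 0 ∧ (∀ i, f.degreeOf i ≤ D) ∧
        eval (ξ j) f = 0 ∧ d j * Real.log (PH f) ≤ Kc * H

/-- **ROWB**: a vanishing row is a relation of small height. Hypothesis allowed: HHO.
PROOF. `c ≠ 0`: choose `α` with `c (α, ·) ≠ 0`, `F := ∑_β C (c (α, β)) * ∏ X_i^(β i)`; its coefficients are the `c (α, β)` (different `β` give different monomials), so `F ≠ 0`, `log PH F = logHeight` of the non-zero coefficients `≤ [K:ℚ] A` (HHO). -/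
def ROWB : Prop :=
  ∀ (K : Type) [Field K] [NumberField K] (σ : Type) [Fintype σ] [DecidableEq σ] (n M δ : ℕ)
    (e : Fin n → ℕ) (c : Ix σ n M δ e → K) (A : ℝ) (x0 : σ → K), c ≠ 0 → 0 ≤ A →
    (∀ α, IsIntegral ℤ (c α)) → (∀ α, NumberField.house (c α) ≤ Real.exp A) →
    (∀ α : ∀ j : Fin n, Ax σ M (e j),
      ∑ β : σ → Fin δ, c (α, β) * ∏ i, x0 i ^ (β i).val = 0) →
    LowS (δ - 1) (Module.finrank ℚ K * A) x0

/-- **ZEB** (the zero estimate). Hypotheses allowed: NQX, QIXB, WRZ, BRU, ROWB.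
PROOF. `m = |σ|`, `q_j = 4 ^ e j`, `q_0 = 4 ^ e 0` the largest one; `sqB e ≤ n q_0` (`K1 ≥ 1`). `A := CA q_0`. NQX gives `Q`. If `spc x0 Q = 0` then all rows vanish at `x0` and ROWB is the second alternative (`C' ≥ [K:ℚ] CA`). Otherwise suppose that all coefficients of weight `< 1` (weights `r_h = q_(h.1)`)
of `f := P0B W .. X Ψ (cn x0) (cn ψ0)` vanish. `aeval X (spc x0 Q) = aeval (Sum.elim X (cn x0)) Q = f * g`, so by QIXB `IndGe r ξ 1 (spc x0 Q)`. WRZ (`τ = σ`, `D = nsg σ n * (2 n M + δ)`, `R = nsg σ n * (2M+1) * q_0`, `ρ = K1 ≥ 2 s0`; `spc = spT`): `W ≠ 0`,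
degrees `≤ r_h w0`, `w0 := s0 nsg (2M+1) ≥ 1`, `log PH W ≤ s0 (C (n + CA) + C nsg (2M+1)) q_0 ≤ H w0` with `H := CH q_0`, `CH ≥ 1`, index `≥ 1/2 = ι w0`, `ι := 1/(2 w0)`. BRU with `K1 ≥ 1/ω`: `f ≠ 0` in `X_σ`, degrees `≤ D`, `q_j log PH f ≤ Kc CH q_0`: the first alternative. -/
def ZEB : Prop :=
  ∀ (K : Type) [Field K] [NumberField K] (σ : Type) [Fintype σ] [DecidableEq σ]
    (W : σ → Affine K), (∀ i, (W i).IsElliptic) → ∀ (n M δ : ℕ) (hn : 0 < n), 1 ≤ M → 1 ≤ δ →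
    ∀ CA : ℝ, 0 ≤ CA → ∃ (D' : ℕ) (C' K1 : ℝ), 0 ≤ C' ∧
      ∀ (e : Fin n → ℕ) (c : Ix σ n M δ e → K) (ξ ψ : Fin n → σ → K) (x0 ψ0 : σ → K)
        (X Ψ : Fin n → σ → MvPowerSeries (Fin n × σ) K), c ≠ 0 → (∀ α, IsIntegral ℤ (c α)) →
        (∀ α, NumberField.house (c α) ≤ Real.exp (CA * 4 ^ e ⟨0, hn⟩)) → TayB W ξ ψ X Ψ →
        (∀ j i, ψ j i ≠ 0) → (∀ i, ψ0 i ^ 2 = Bf (W i) (x0 i)) →
        (∀ j j', j < j' → K1 * 4 ^ e j' ≤ 4 ^ e j) → (∀ j, K1 ≤ 4 ^ e j) →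
        (∃ j, LowS D' (C' * (4 ^ e ⟨0, hn⟩ / 4 ^ e j)) (ξ j)) ∨
        LowS (δ - 1) (C' * 4 ^ e ⟨0, hn⟩) x0 ∨
        ∃ α : Fin n × σ →₀ ℕ, wt (fun h : Fin n × σ => 4 ^ e h.1) α < 1 ∧
          MvPowerSeries.coeff α (PT W n M δ e c (fun _ _ => false) X Ψ x0 ψ0) ≠ 0

end

end Pool.Agent.Helper68.VN
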