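import Pool.Agent.Helper68.VN.AsmP
import Pool.Agent.Helper68.VN.Old
import Pool.Agent.Helper12.VN.NDB
import Pool.Agent.Helper14.VN.ARRB
import Pool.Agent.Helper16.HC.CHB
import Pool.Agent.Helper14.VN.NBB
import Pool.Agent.Helper14.VN.NUMB
import Pool.Agent.Helper31.VN.LOCB
import Pool.Agent.Helper31.VN.NZHB
import Pool.Agent.Helper38.VN.NQX
import Pool.Agent.Helper38.VN.QIXB
import Pool.Agent.Helper41.VN.PSDV
import Pool.Agent.Helper45.VN.ROWB
import Pool.Agent.Helper47.VN.NEB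
import Pool.Agent.Helper50.VN.BRNB
import Pool.Agent.Helper57.VN.GLOBB
import Pool.Agent.Helper57.VN.NVB
import Pool.Agent.Helper57.VN.VANB
import Pool.Agent.Helper64.VN.SIEB
import Pool.Agent.Helper66.VN.NHB
import Pool.Agent.Helper7.VN.WRZ
import Pool.Agent.Helper70.VN.RELP
import Pool.Agent.Helper73.VN.TAYF
import Pool.Agent.Helper65.VN.TAYX
import Pool.Agent.Helper65.VN.NNB
import Pool.Agent.Helper75.VN.NWB
import Pool.Agent.Helper55.VN.LAWB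
import Pool.Agent.Helper83.VN.CARDB
import Pool.Agent.Helper68.VN.NAB
import Pool.Agent.Helper68.VN.BLKX
import Pool.Agent.Helper92.PN.CenAll
import Pool.Agent.Helper81.VN.BRU
import Pool.Agent.Helper81.VN.ZEB
import Pool.Agent.Helper9.VN.KEYB
import Pool.Agent.Helper91.VN.EXPB
import Pool.Agent.Helper95.VN.CNTB
import Pool.Agent.Helper95.VN.NRB
import Pool.Agent.Helper95.VN.TAYN
import Pool.Agent.Helper65.SG.All
import Pool.Agent.Helper12.SGB.All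
import Pool.Agent.Helper40.SGE.MINA
import Pool.Agent.Helper24.SGC.HOUS
import Pool.Agent.Helper71.SGT.NQH
import Pool.Agent.Helper31.SGT.MINC

/-!
# Project HC (MP_a41896_nt): theorems P1 and P2 from the packets
-/

set_option autoImplicit false

namespace Pool.Agent.Helper68.VN

open Pool.Agent.Helper42.SG
open Pool.Agent.Helper60.HC (S_P1 S_P2)

theorem th_KEYB : KEYB :=
  Pool.Agent.Helper9.VN.KEYB.t_KEYB (Pool.Agent.Helper91.VN.t_EXPB t_BLKX)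
    Pool.Agent.Helper57.VN.t_VANB Pool.Agent.Helper35.SGC1.nfb
    Pool.Agent.Helper50.VN.BRNB.t_BRNB Pool.Agent.Helper95.VN.t_CNTB

theorem th_AUXB : AUXB :=
  auxb Pool.Agent.Helper14.VN.ARRB.t_ARRB
    (Pool.Agent.Helper64.VN.t_SIEB Pool.Agent.Helper83.VN.CARDB.t_CARDB Pool.Agent.Helper24.SGC.hous)
    th_KEYB

theorem th_NQX : NQX :=
  Pool.Agent.Helper38.VN.NQX.t_NQX
    (Pool.Agent.Helper31.VN.NZHB.t_NZHB Pool.Agent.Helper65.SG.th_NZV)
    Pool.Agent.Helper65.SG.th_FRPO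
    (Pool.Agent.Helper14.VN.NBB.t_NBB Pool.Agent.Helper65.SG.th_FRPO t_NAB)
    Pool.Agent.Helper75.VN.t_NWB Pool.Agent.Helper65.VN.NNB.t_NNB
    (Pool.Agent.Helper47.VN.NEB.t_NEB Pool.Agent.Helper65.VN.NNB.t_NNB)
    Pool.Agent.Helper57.VN.t_NVB Pool.Agent.Helper12.VN.NDB.t_NDB
    (Pool.Agent.Helper95.VN.t_NRB Pool.Agent.Helper65.SG.th_FRPO)
    Pool.Agent.Helper66.VN.NHB.t_NHB Pool.Agent.Helper71.SGT.t_NQH

theorem th_ZEB : ZEB :=
  Pool.Agent.Helper81.VN.ZEB.t_ZEB th_NQX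
    Pool.Agent.Helper38.VN.QIXB.t_QIXB Pool.Agent.Helper7.VN.t_WRZ
    Pool.Agent.Helper81.VN.BRU.t_BRU (Pool.Agent.Helper45.VN.t_ROWB t_HHO)

theorem th_TAYN : TAYN :=
  Pool.Agent.Helper95.VN.t_TAYN Pool.Agent.Helper65.VN.TAYX.t_TAYX
    (Pool.Agent.Helper73.VN.TAYF.t_TAYF Pool.Agent.Helper65.SG.th_FRPS)

theorem th_RELP : RELP := Pool.Agent.Helper70.VN.RELP.t_RELP Pool.Agent.Helper41.VN.t_PSDV

/-- Theorem PG -/
theorem th_PGB : PGB :=
  pgb th_AUXB th_ZEB th_TAYN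
    (Pool.Agent.Helper55.VN.LAWB.t_LAWB Pool.Agent.Helper12.SGB.th_RPOL
      Pool.Agent.Helper31.SGT.t_MINC)
    (Pool.Agent.Helper31.VN.LOCB.t_LOCB Pool.Agent.Helper65.SG.th_FRPS)
    (Pool.Agent.Helper57.VN.t_GLOBB t_HHO Pool.Agent.Helper16.HC.CHB.t)
    Pool.Agent.Helper14.VN.NUMB.t_NUMB
    Pool.Agent.Helper12.SGB.th_EDUP Pool.Agent.Helper12.SGB.th_ELAW
    Pool.Agent.Helper12.SGB.th_ELOC t_LAWH Pool.Agent.Helper12.SGB.th_EUP
    Pool.Agent.Helper40.SGE.mina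

theorem th_CENX : CENX := cenx Pool.Agent.Helper92.PN.cen

/-- **Theorem P1** (unconditional) -/
theorem th_P1 : S_P1 :=
  p1 th_PGB th_CENX Pool.Agent.Helper16.HC.CHB.t

/-- **Theorem P2** (unconditional) -/
theorem th_P2 : S_P2 :=
  p2 th_PGB th_CENX Pool.Agent.Helper16.HC.CHB.t th_RELP

end Pool.Agent.Helper68.VN
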