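import Pool.Agent.Helper68.VN.AsmPG
import Pool.Agent.Helper68.Ru.Siegel

/-!
# Project HC (MP_a41896_nt): theorems P1 and P2 (`S_P1`, `S_P2` of helper60) from theorem PG
-/

set_option autoImplicit false

open MvPolynomial

namespace Pool.Agent.Helper68.VN

open WeierstrassCurve Height Height.AdmissibleAbsValues
open Pool.Agent.Helper29.BL Pool.Agent.Helper92.Ru Pool.Agent.Helper42.SG
open Pool.Agent.Helper77.SGC (N0)
open Pool.Agent.Helper5.UN (CodimGT cH)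
open Pool.Agent.Helper60.HC (Lo Al S_CHB S_P1 S_P2 rhs nrs)
open Pool.Agent.Helper92.PN (CEN)

noncomputable section

theorem cenx (h : CEN) : CENX := by
  intro K _ _ σ _ J _ D p f hp1 hp2 hdeg hcod
  obtain ⟨c, d, B, hc, hd, hB, hN⟩ := h K σ J D p f hp1 hp2 hdeg hcod
  refine ⟨c, d, B, hc, hd, hB, fun N => ?_⟩
  obtain ⟨T, hT, gr, E, r, h1, h2, h3, h4, h5, h6⟩ := hN N
  refine ⟨T, hT, gr, E, fun t s => r t (Finsupp.equivFunOnFinite.symm s),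
    ⟨h1, h2, fun v t s => h3 v t _, fun t s => h4 t _, ?_, h6⟩⟩
  intro s hs
  have h7 := h5 (Finsupp.equivFunOnFinite.symm s) (fun i => by simpa using hs i)
  rw [← h7, monomial_eq, C_1, one_mul, Finsupp.prod_fintype _ _ (fun i => pow_zero _)]
  exact Finset.prod_congr rfl fun i _ => by simp

lemma LowS.toLo {K : Type} [Field K] [NumberField K] {σ : Type} [Fintype σ] {D D' : ℕ}
    {A A' : ℝ} {x : σ → K} (h : LowS D A x) (hD : D ≤ D') (hA : A ≤ A') :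
    Lo Finset.univ D' A' x := by
  obtain ⟨F, h0, h1, h2, h3⟩ := h
  exact ⟨F, h0, fun i => (h1 i).trans hD, fun i hi => absurd (Finset.mem_univ i) hi, h2,
    h3.trans hA⟩

/-- a constant has no zero -/
lemma not_LowS_zero {K : Type} [Field K] [NumberField K] {σ : Type} [Fintype σ] {A : ℝ}
    {x : σ → K} : ¬ LowS 0 A x := by
  rintro ⟨F, h0, h1, h2, -⟩
  have h3 : F = C (coeff 0 F) := by
    have h4 : F.totalDegree = 0 := by
      rw [totalDegree_eq_zero_iff]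
      intro m hm i
      have h5 := monomial_le_degreeOf i hm
      have h6 := h1 i
      omega
    exact totalDegree_eq_zero_iff_eq_C.mp h4
  rw [h3, eval_C] at h2
  rw [h2, C_0] at h3
  exact h0 h3

lemma RedD.mono {K : Type} [Field K] [NumberField K] {σ : Type} [Fintype σ] [DecidableEq σ]
    {x0 : σ → K} {E : ℕ} {U : Type} {ν : U → (σ → ℕ) → K} {H H' : ℝ} (h : RedD x0 E ν H)
    (hH : H ≤ H') : RedD x0 E ν H' :=
  ⟨h.int, fun u g => (h.hs u g).trans (Real.exp_le_exp.mpr hH), h.red⟩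

/-- the trivial relation data -/
lemma redD_triv {K : Type} [Field K] [NumberField K] {σ : Type} [Fintype σ] [DecidableEq σ]
    (x0 : σ → K) (E : ℕ) {H : ℝ} (hH : 0 ≤ H) :
    RedD x0 E (fun (u : σ → Fin (E + 1)) g => if g = (fun i => (u i).val) then 1 else 0) H := by
  have h1 : NumberField.house (1 : K) ≤ 1 := Pool.Agent.Helper68.Ru.house_one_le K
  have h0 : NumberField.house (0 : K) ≤ 0 := Pool.Agent.Helper68.Ru.house_zero' K
  have he : (1 : ℝ) ≤ Real.exp H := Real.one_le_exp hH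
  refine ⟨fun u g => ?_, fun u g => ?_, fun G hG => ?_⟩
  · split_ifs
    · exact isIntegral_one
    · exact isIntegral_zero
  · split_ifs
    · exact h1.trans he
    · exact h0.trans (zero_le_one.trans he)
  · refine Finset.sum_eq_zero fun g hg => ?_
    have hg' : ∀ i, g i < E + 1 := by
      intro i
      have := Fintype.mem_piFinset.mp hg i
      exact Finset.mem_range.mp this
    have h2 := hG (fun i => ⟨g i, hg' i⟩)
    rw [Finset.sum_eq_single_of_mem g hg] at h2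
    · rw [if_pos rfl, one_mul] at h2
      rw [h2, zero_mul]
    · intro g' _ hne
      rw [if_neg hne, zero_mul]

/-- if `D = 0` there are no aligned exceptional points with large `K0` -/
lemma al_zero (hCHB : S_CHB) {K : Type} [Field K] [NumberField K] [DecidableEq K] {σ : Type}
    [Fintype σ] {W : σ → Affine K} (H : ∀ i, (W i).Point → ℝ) {J : Type} [Fintype J]
    (f : J → MvPolynomial σ K) (hdeg : ∀ j i, degreeOf i (f j) ≤ 0) (ε : ℝ) (hε : 0 < ε) :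
    ∃ K0 : ℝ, ∀ (n : ℕ) (θ : ℝ) (x : Fin (n + 1) → ∀ i, (W i).Point) (x0 : ∀ i, (W i).Point)
      (e : Fin (n + 1) → ℕ) (T : ℝ), ¬ Al H 0 f (n + 1) θ ε K0 x x0 e T := by
  obtain ⟨c, hc, hx⟩ := hCHB K σ 0 J f hdeg
  refine ⟨c / ε + 1, fun n θ x x0 e T h => ?_⟩
  have h1 := (hx (Pool.Agent.Helper60.HC.xs (x 0)) (h.off 0)).1
  have h2 := h.exc 0
  have h3 := h.bigT 0
  have h4 : (0 : ℝ) < 4 ^ e 0 := by positivity
  rw [Nat.cast_zero, zero_mul, zero_add] at h1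
  have h5 : ε * ((c / ε + 1) * 4 ^ e 0) ≤ 4 ^ e 0 * c :=
    (mul_le_mul_of_nonneg_left h3 hε.le).trans (h2.trans (mul_le_mul_of_nonneg_left h1 h4.le))
  have h6 : ε * ((c / ε + 1) * 4 ^ e 0) = 4 ^ e 0 * c + ε * 4 ^ e 0 := by
    field_simp
  rw [h6] at h5
  have := mul_pos hε h4
  linarith

lemma exists_k0 (ε : ℝ) (hε : 0 < ε) : ∃ k0 : ℕ, 12 ≤ ((k0 : ℝ) - 1) * ε := by
  refine ⟨⌈12 / ε⌉₊ + 1, ?_⟩
  have h1 : 12 / ε ≤ (⌈12 / ε⌉₊ : ℝ) := Nat.le_ceil _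
  have h2 : 12 / ε * ε = 12 := by field_simp
  push_cast
  rw [add_sub_cancel_right]
  calc (12 : ℝ) = 12 / ε * ε := h2.symm
    _ ≤ _ := mul_le_mul_of_nonneg_right h1 hε.le

lemma count1 (m c k0 : ℕ) (hm : 2 ≤ m) : ∃ n : ℕ,
    2 * (n + 1) * 4 ^ m * c * k0 ^ 2 * (2 * (n + 1) + 2) ^ (m - 2) *
      (2 * (n + 1) + (n + 1) + 1) ^ m ≤ (n + 1 + 1) ^ m * (n + 1) ^ m := by
  refine ⟨2 * 4 ^ m * c * k0 ^ 2 * 2 ^ m * 4 ^ m, ?_⟩
  set N := 2 * 4 ^ m * c * k0 ^ 2 * 2 ^ m * 4 ^ m + 1 with hN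
  have h1 : (2 * N + N + 1) ^ m ≤ 4 ^ m * N ^ m := by
    rw [← mul_pow]
    exact Nat.pow_le_pow_left (by omega) _
  have h2 : (2 * N + 2) ^ (m - 2) ≤ 2 ^ m * (N + 1) ^ (m - 2) := by
    have e : 2 * N + 2 = 2 * (N + 1) := by ring
    rw [e, mul_pow]
    exact Nat.mul_le_mul_right _ (Nat.pow_le_pow_right (by norm_num) (by omega))
  have h3 : (N + 1) ^ m = (N + 1) ^ (m - 2) * (N + 1) ^ 2 := by
    rw [← pow_add]; congr 1; omega
  have h4 : 2 * N * 4 ^ m * c * k0 ^ 2 * 2 ^ m * 4 ^ m ≤ (N + 1) ^ 2 := by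
    have e : 2 * N * 4 ^ m * c * k0 ^ 2 * 2 ^ m * 4 ^ m =
        N * (2 * 4 ^ m * c * k0 ^ 2 * 2 ^ m * 4 ^ m) := by ring
    have e2 : (N + 1) ^ 2 = (N + 1) * (N + 1) := by ring
    rw [e, e2]
    exact Nat.mul_le_mul (by omega) (by omega)
  calc 2 * N * 4 ^ m * c * k0 ^ 2 * (2 * N + 2) ^ (m - 2) * (2 * N + N + 1) ^ m
      ≤ 2 * N * 4 ^ m * c * k0 ^ 2 * (2 ^ m * (N + 1) ^ (m - 2)) * (4 ^ m * N ^ m) :=
        Nat.mul_le_mul (Nat.mul_le_mul_left _ h2) h1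
    _ = (2 * N * 4 ^ m * c * k0 ^ 2 * 2 ^ m * 4 ^ m) * ((N + 1) ^ (m - 2) * N ^ m) := by ring
    _ ≤ (N + 1) ^ 2 * ((N + 1) ^ (m - 2) * N ^ m) := Nat.mul_le_mul_right _ h4
    _ = (N + 1) ^ m * N ^ m := by rw [h3]; ring

lemma count2 (m c k0 s D0 : ℕ) (hs : s + 1 ≤ m) : ∃ M : ℕ, 1 ≤ M ∧
    2 * (0 + 1) * 4 ^ m * c * k0 ^ (s + 1) * (2 * M + 2) ^ (m - (s + 1)) *
      ((D0 + 1) ^ m * ((2 * M + 1) * (1 + m * D0) + 1) ^ s) ≤ (M + 1) ^ m * 1 ^ m := by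
  set Q := 2 * 4 ^ m * c * k0 ^ (s + 1) * 2 ^ (m - (s + 1)) *
    ((D0 + 1) ^ m * ((1 + m * D0) ^ s * 2 ^ s)) with hQ
  refine ⟨Q + 1, by omega, ?_⟩
  set M := Q + 1 with hM
  have h1 : ((2 * M + 1) * (1 + m * D0) + 1) ^ s ≤ (1 + m * D0) ^ s * 2 ^ s * (M + 1) ^ s := by
    rw [← mul_pow, ← mul_pow]
    refine Nat.pow_le_pow_left ?_ _
    have : 1 ≤ 1 + m * D0 := by omega
    nlinarith
  have h2 : (2 * M + 2) ^ (m - (s + 1)) = 2 ^ (m - (s + 1)) * (M + 1) ^ (m - (s + 1)) := by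
    rw [← mul_pow]; congr 1
  have h3 : (M + 1) ^ m = (M + 1) ^ (m - (s + 1)) * (M + 1) ^ s * (M + 1) := by
    rw [← pow_add, ← pow_succ]; congr 1; omega
  rw [one_pow, mul_one, h2, h3]
  calc 2 * (0 + 1) * 4 ^ m * c * k0 ^ (s + 1) * (2 ^ (m - (s + 1)) * (M + 1) ^ (m - (s + 1))) *
        ((D0 + 1) ^ m * ((2 * M + 1) * (1 + m * D0) + 1) ^ s)
      ≤ 2 * (0 + 1) * 4 ^ m * c * k0 ^ (s + 1) *
        (2 ^ (m - (s + 1)) * (M + 1) ^ (m - (s + 1))) *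
        ((D0 + 1) ^ m * ((1 + m * D0) ^ s * 2 ^ s * (M + 1) ^ s)) :=
        Nat.mul_le_mul_left _ (Nat.mul_le_mul_left _ h1)
    _ = Q * ((M + 1) ^ (m - (s + 1)) * (M + 1) ^ s) := by rw [hQ]; ring
    _ ≤ (M + 1) * ((M + 1) ^ (m - (s + 1)) * (M + 1) ^ s) :=
        Nat.mul_le_mul_right _ (by omega)
    _ = _ := by ring

/-- Theorem P1 -/
theorem p1 (hPG : PGB) (hCENX : CENX) (hCHB : S_CHB) : S_P1 := by
  classical
  intro K _ _ _ σ _ _ W hW H c₀ hH D J _ f hdeg hcod hσ ε hε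
  haveI : Nonempty σ := Fintype.card_pos_iff.mp (by omega)
  rcases Nat.eq_zero_or_pos D with hD | hD
  · subst hD
    obtain ⟨K0, hK0⟩ := al_zero hCHB H f hdeg ε hε
    exact ⟨0, 0, 0, 1, K0, one_pos, le_rfl, fun x x0 e T h => absurd h (hK0 0 1 x x0 e T)⟩
  obtain ⟨c, d, B, hc, hd, hB, hcen⟩ := hCENX K σ J D 2 f (by norm_num) hσ hdeg hcod
  obtain ⟨k0, hk0⟩ := exists_k0 ε hε
  obtain ⟨n, hn⟩ := count1 (Fintype.card σ) c k0 hσ
  obtain ⟨D', C', θ, K0, hθ, hC', h⟩ := hPG K σ W hW H c₀ hH D J f hD hdeg 2 c d B hd hB hσ hcen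
    n (n + 1) (n + 1) k0 ((2 * (n + 1) + (n + 1) + 1) ^ Fintype.card σ) ε 0 (by omega) (by omega)
    le_rfl hε hk0 le_rfl hn
  refine ⟨n, max D' n, C', θ, K0, hθ, hC', fun x x0 e T hAl => ?_⟩
  have hU : Fintype.card (σ → Fin (2 * (n + 1) + (n + 1) + 1)) ≤
      (2 * (n + 1) + (n + 1) + 1) ^ Fintype.card σ := by
    rw [Fintype.card_fun, Fintype.card_fin]
  rcases h x x0 e T hAl (σ → Fin (2 * (n + 1) + (n + 1) + 1)) _ hU
    (redD_triv _ _ (by rw [zero_mul])) with ⟨j, hj⟩ | hb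
  · exact Or.inl ⟨j, hj.toLo (le_max_left _ _) le_rfl⟩
  · exact Or.inr (hb.toLo (by omega) le_rfl)

/-- Theorem P2 -/
theorem p2 (hPG : PGB) (hCENX : CENX) (hCHB : S_CHB) (hREL : RELP) : S_P2 := by
  classical
  intro K _ _ _ σ _ _ W hW H c₀ hH D s J _ f hdeg hcod hσ ε D0 C0 hε hC0
  haveI : Nonempty σ := Fintype.card_pos_iff.mp (by omega)
  rcases Nat.eq_zero_or_pos D with hD | hD
  · subst hD
    obtain ⟨K0, hK0⟩ := al_zero hCHB H f hdeg ε hε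
    exact ⟨0, 0, 1, K0, one_pos, le_rfl, fun I0 x x0 e T _ h => absurd h (hK0 0 1 x x0 e T)⟩
  obtain ⟨c, d, B, hc, hd, hB, hcen⟩ := hCENX K σ J D (s + 1) f (by omega) hσ hdeg
    (by rw [Nat.add_sub_cancel]; exact hcod)
  obtain ⟨k0, hk0⟩ := exists_k0 ε hε
  obtain ⟨M, hM1, hM⟩ := count2 (Fintype.card σ) c k0 s D0 hσ
  obtain ⟨CR, hCR, hrel⟩ := hREL K σ D0 (2 * M + 1)
  obtain ⟨D', C', θ, K0, hθ, hC', h⟩ := hPG K σ W hW H c₀ hH D J f hD hdeg (s + 1) c d B hd hB hσ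
    hcen 0 M 1 k0 ((D0 + 1) ^ Fintype.card σ *
      ((2 * M + 1) * (1 + Fintype.card σ * D0) + 1) ^ s) ε (CR * (1 + C0)) hM1 le_rfl
    le_rfl hε hk0 (by positivity) hM
  refine ⟨D', C', θ, K0, hθ, hC', fun I0 x x0 e T hI0 hAl hnot hlow => ?_⟩
  have h4 : (1 : ℝ) ≤ 4 ^ e 0 := one_le_pow₀ (by norm_num)
  obtain ⟨U, hUf, ν, hU, hred⟩ := hrel I0 _ (C0 * 4 ^ e 0) (by positivity) hnot hlow
  have hU' : Fintype.card U ≤ (D0 + 1) ^ Fintype.card σ *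
      ((2 * M + 1) * (1 + Fintype.card σ * D0) + 1) ^ s :=
    hU.trans (Nat.mul_le_mul_left _ (Nat.pow_le_pow_right (by omega) hI0))
  have hred' := hred.mono (H' := CR * (1 + C0) * 4 ^ e 0) (by
    rw [mul_assoc]
    refine mul_le_mul_of_nonneg_left ?_ hCR
    linarith)
  rcases h x x0 e T hAl U ν hU' hred' with ⟨j, hj⟩ | hb
  · have hj0 : j = 0 := Fin.ext (by have := j.isLt; simp only [Fin.val_zero]; omega)
    subst hj0
    rw [div_self (by positivity), mul_one] at hj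
    exact hj.toLo le_rfl le_rfl
  · exact absurd hb not_LowS_zero

end

end Pool.Agent.Helper68.VN
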