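import Pool.Agent.Helper68.VN.GoalsA
import Pool.Agent.Helper68.VN.GoalsN
import Pool.Agent.Helper60.HC.GoalsP

/-!
# Project HC, theorem PG (MP_a41896_nt), module T: Taylor expansions, change of laws, local and global estimate, relations, theorem PG

Sections 3, 5.3, 7 of `MP_a41896_hc_helper60.md`.
-/

set_option autoImplicit false

open MvPolynomial

namespace Pool.Agent.Helper68.VN

open WeierstrassCurve Height
open Pool.Agent.Helper29.BL Pool.Agent.Helper92.Ru Pool.Agent.Helper42.SG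
open Pool.Agent.Helper77.SGC (N0)
open Pool.Agent.Helper5.UN (CodimGT cH)
open Pool.Agent.Helper60.HC (Lo Al S_CHB S_P1 S_P2 rhs)

noncomputable section

/-! ## Taylor expansions -/

/-- **TAYX** (Taylor expansion with its norms). Hypotheses allowed: FRPS, TAY (`Helper42.SG`).
PROOF. As TAY (landed, `Pool/Agent/Helper65/SG/Tay.lean`; TAYT: `Pool/Agent/Helper3/SG2/TAYT.lean`), with the variables `h = (j, i) : Fin n × σ` and the curve `W i`: the core is the one-variable statement: in a power series ring with the variable `τ` and the norm `NPS v r`,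
`r ≤ 1/(B v M_v(ξ)²)`: `X = ξ + 4ψ²τ`, `Ψ = ψ √(1 + 4g)`. `NPS` is monotone in the radii (smaller radii, smaller norm), so it is enough to have the radii `1/(B v M_v(ξ_h)²)`. `B v := ∏_i B_i v`. -/
def TAYX : Prop :=
  ∀ (K : Type) [Field K] [NumberField K] (σ : Type) [Fintype σ] (W : σ → Affine K),
    ∃ B : AbsoluteValue K ℝ → ℝ, PlC B ∧ ∀ (n : ℕ) (ξ ψ : Fin n → σ → K),
      (∀ j i, ψ j i ^ 2 = Bf (W i) (ξ j i) ∧ ψ j i ≠ 0) →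
      ∃ X Ψ : Fin n → σ → MvPowerSeries (Fin n × σ) K, TayB W ξ ψ X Ψ ∧
        ∀ (v : AbsoluteValue K ℝ) (r : Fin n × σ → ℝ),
          (∀ h, 0 < r h ∧ r h ≤ 1 / (B v * Mv v (ξ h.1 h.2) ^ 2)) → ∀ j i,
          NPS v r (X j i) (B v * Mv v (ξ j i)) ∧ NPS v r (Ψ j i) (B v * Mv v (ξ j i) ^ 2)

/-- **TAYF** (the centre in the Taylor frame). Hypothesis allowed: FRPS.
PROOF. Let `m = |σ|`, `ρ = rho D f v (ξ j)`, `M_i = M_v(ξ j i)`, `r = rad D f b v ξ`, `b = B' v`. `ρ > 0` because some `f_k(ξ_j) ≠ 0` (finite supremum), `ρ ≤ 1`. `X j i = ξ_i + u_i`, `u_i = 4 ψ² τ_(j,i)`, `NPS v r u_i (v 4 v(ψ)² r_(j,i))`, and `v(ψ)² = v (Bf (W i) ξ) ≤ B₁ v M_i³` (trivial estimate), so `N(u_i) ≤ (cst v 4) B₁ M_i³ ρ / (b M_i²) ≤ ρ M_i`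
if `b ≥ cst v 4 * B₁ v`. For a monomial `X^g`, `g_i ≤ D`: `∏ (ξ_i + u_i)^(g_i) - ∏ ξ_i^(g_i)` has norm `≤ C_v ρ (∏ M_i)^D`: e.g. by induction on `∑ g_i`: if `P` has `N(P(ξ+u)) ≤ 2^k ∏M^g`, `N(P(ξ+u) - P(ξ)) ≤ k 2^k ρ ∏ M^g` (`cst`-versions at nonarchimedean `v`: without the factors), multiply by `ξ_i + u_i`. So
`N(f_k(X_j) - f_k(ξ_j)) ≤ B₂ v ρ (∏ M)^D` (sum over the monomials of `f_k`, coefficients bounded by a place constant), and `v(f_k(ξ_j)) ≤ ρ (∏M)^D B₃ v`: `v(f_k(ξ_j)) ≤ max_k v(f_k(ξ_j)) = S` and `S ≤ B₃ v (∏M)^D`, `ρ = min(1, S/(∏M)^D)`, `B₃ ≥ 1`. `B' := B * (cst v 4 * B₁) * (B₂ + B₃)` (a place constant `≥` all of these). -/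
def TAYF : Prop :=
  ∀ (K : Type) [Field K] [NumberField K] (σ : Type) [Fintype σ] [DecidableEq σ]
    (W : σ → Affine K) (J : Type) [Fintype J] (D : ℕ) (f : J → MvPolynomial σ K),
    (∀ j i, degreeOf i (f j) ≤ D) → ∀ B : AbsoluteValue K ℝ → ℝ, PlC B →
    ∃ B' : AbsoluteValue K ℝ → ℝ, PlC B' ∧ (∀ v, B v ≤ B' v) ∧
    ∀ (n : ℕ) (ξ ψ : Fin n → σ → K) (X Ψ : Fin n → σ → MvPowerSeries (Fin n × σ) K),
      TayB W ξ ψ X Ψ → (∀ j i, ψ j i ^ 2 = Bf (W i) (ξ j i)) →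
      (∀ j, ∃ k, eval (ξ j) (f k) ≠ 0) → ∀ (v : AbsoluteValue K ℝ) (j : Fin n) (k : J),
      NPS v (rad D f (B' v) v ξ) (aeval (X j) (f k))
        (rho D f v (ξ j) * (B' v * (∏ i, Mv v (ξ j i)) ^ D))

/-- **TAYN**: the Taylor frame. From TAYX, TAYF. -/
def TAYN : Prop :=
  ∀ (K : Type) [Field K] [NumberField K] (σ : Type) [Fintype σ] [DecidableEq σ] [Nonempty σ]
    (W : σ → Affine K) (J : Type) [Fintype J] (D : ℕ) (f : J → MvPolynomial σ K), 1 ≤ D →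
    (∀ j i, degreeOf i (f j) ≤ D) →
    ∃ B' : AbsoluteValue K ℝ → ℝ, PlC B' ∧
    ∀ (n : ℕ) (ξ ψ : Fin n → σ → K), (∀ j i, ψ j i ^ 2 = Bf (W i) (ξ j i) ∧ ψ j i ≠ 0) →
      (∀ j, ∃ k, eval (ξ j) (f k) ≠ 0) →
      ∃ X Ψ : Fin n → σ → MvPowerSeries (Fin n × σ) K, TayB W ξ ψ X Ψ ∧
        ∀ v : AbsoluteValue K ℝ, (∀ j, 0 < rho D f v (ξ j) ∧ rho D f v (ξ j) ≤ 1) ∧
          (∀ h, 0 < rad D f (B' v) v ξ h) ∧
          (∀ j i, NPS v (rad D f (B' v) v ξ) (X j i) (B' v * Mv v (ξ j i)) ∧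
            NPS v (rad D f (B' v) v ξ) (Ψ j i) (B' v * Mv v (ξ j i) ^ 2)) ∧
          ∀ j k, NPS v (rad D f (B' v) v ξ) (aeval (X j) (f k))
            (rho D f v (ξ j) * ∏ i, (B' v * Mv v (ξ j i)) ^ D)

/-! ## Change of laws, the local estimate -/

/-- **LAWB** (change of the laws at a minimal coefficient). Hypotheses allowed: RPOL, MINC (`Helper42.SG`). As LAWCT (landed: `Pool/Agent/Helper71/SG2/LAWCT.lean`) and its docstring: for `lam j i = true` let `a ∈ {1, 2}` with `(L^0)_a ≠ 0` at the point; `(L^1_1)^(M-m) (L^1_2)^m (L^0_a)^M =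
(L^0_1)^(M-m) (L^0_2)^m (L^1_a)^M` (from `L^0_1 L^1_2 = L^0_2 L^1_1`, RPOL), `(L^0_a)` is invertible in the power series ring, `P^lam = P^0 * g` with constant term `∏ ω^M`. MINC. -/
def LAWB : Prop :=
  ∀ (K : Type) [Field K] [NumberField K] (σ : Type) [Fintype σ] [DecidableEq σ]
    (W : σ → Affine K) (n M δ : ℕ) (e : Fin n → ℕ) (c : Ix σ n M δ e → K)
    (ξ ψ ω : Fin n → σ → K) (x0 ψ0 : σ → K) (X Ψ : Fin n → σ → MvPowerSeries (Fin n × σ) K)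
    (d : Fin n × σ → ℕ) (α : Fin n × σ →₀ ℕ) (lam : Fin n → σ → Bool),
    TayB W ξ ψ X Ψ → (∀ i, ψ0 i ^ 2 = Bf (W i) (x0 i)) → (∀ h, 1 ≤ d h) →
    (∀ j i, (lawP W e false ξ ψ x0 ψ0 j i).1 ≠ 0 ∨ (lawP W e false ξ ψ x0 ψ0 j i).2 ≠ 0) →
    (∀ j i, (lawP W e true ξ ψ x0 ψ0 j i).1 = ω j i * (lawP W e false ξ ψ x0 ψ0 j i).1 ∧
      (lawP W e true ξ ψ x0 ψ0 j i).2 = ω j i * (lawP W e false ξ ψ x0 ψ0 j i).2) →
    (∀ β, wt d β < wt d α →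
      MvPowerSeries.coeff β (PT W n M δ e c (fun _ _ => false) X Ψ x0 ψ0) = 0) →
    MvPowerSeries.coeff α (PT W n M δ e c lam X Ψ x0 ψ0) =
      (∏ j, ∏ i, if lam j i = true then ω j i ^ M else 1) *
        MvPowerSeries.coeff α (PT W n M δ e c (fun _ _ => false) X Ψ x0 ψ0)

/-- **LOCB** (the local estimate). Hypothesis allowed: FRPS.
PROOF. As LOCT (landed: `Pool/Agent/Helper56/SG2/LOCT.lean`), simpler. `lam j i := decide (1 < v (ω j i))`, so `∏ v(..) = ∏_(j,i) M_v(ω j i)^M`. `KeyB` in the frame `NPS v r` (FRPS) with `a j i = B' v * M_v(ξ j i)`, `b = B' v`, and the Cauchy estimate: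
`(∏ M_v(ω)^M) v(dl) ∏_h r_h^(α_h) ≤ s b^(2nm) (B v)^(sqB e) keyV`. `keyV = ∏_j (∏_i B' M(ξ_ji))^(2 q_j M + q_j + 2) ρ_j^(k0 q_j) * ∏_i M(x0_i)^(2nM+δ)`; the powers of `B' v`: exponent `≤ C(n, m, M) sqB e` (`q_j ≥ 1`, `sqB e ≥ n ≥ 1`). The hypothesis (3.3) to the power `M`, multiplied over all `(j, i)`:
`∏_(j,i) M(ξ_ji)^(2 q_j M) * ∏_i M(x0_i)^(2nM) ≤ ∏ B''^(q_j M) max(..)^M M_v(ω)^M`. Cancel `∏ M_v(ω)^M > 0`. -/
def LOCB : Prop :=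
  ∀ (K : Type) [Field K] [NumberField K] (σ : Type) [Fintype σ] [DecidableEq σ]
    (W : σ → Affine K) (J : Type) (f : J → MvPolynomial σ K) (D n M δ k0 : ℕ)
    (B B' B'' : AbsoluteValue K ℝ → ℝ), 1 ≤ n → PlC B → PlC B' → PlC B'' →
    ∃ Bt : AbsoluteValue K ℝ → ℝ, PlC Bt ∧
    ∀ (e : Fin n → ℕ) (c : Ix σ n M δ e → K) (ξ ψ ω : Fin n → σ → K) (x0 ψ0 : σ → K)
      (X Ψ : Fin n → σ → MvPowerSeries (Fin n × σ) K) (α : Fin n × σ →₀ ℕ) (dl : K)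
      (v : AbsoluteValue K ℝ) (r : Fin n × σ → ℝ) (ρ : Fin n → ℝ) (s : ℝ),
      KeyB W f D n M δ k0 x0 ψ0 e c B → TayB W ξ ψ X Ψ → (∀ i, ψ0 i ^ 2 = Bf (W i) (x0 i)) →
      (∀ α, v (c α) ≤ s) → (∀ h, 0 < r h) → (∀ j, 0 < ρ j ∧ ρ j ≤ 1) →
      (∀ j i, NPS v r (X j i) (B' v * Mv v (ξ j i)) ∧ NPS v r (Ψ j i) (B' v * Mv v (ξ j i) ^ 2)) →
      (∀ j k, NPS v r (aeval (X j) (f k)) (ρ j * ∏ i, (B' v * Mv v (ξ j i)) ^ D)) →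
      (∀ i, v (ψ0 i) ≤ B' v * Mv v (x0 i) ^ 2) →
      (∀ j i, Mv v (ξ j i) ^ (2 * 4 ^ e j) * Mv v (x0 i) ^ 2 ≤ B'' v ^ (4 ^ e j) *
        max (v (lawP W e false ξ ψ x0 ψ0 j i).1) (v (lawP W e false ξ ψ x0 ψ0 j i).2) *
          Mv v (ω j i)) →
      (∀ lam : Fin n → σ → Bool, MvPowerSeries.coeff α (PT W n M δ e c lam X Ψ x0 ψ0) =
        (∏ j, ∏ i, if lam j i = true then ω j i ^ M else 1) * dl) →
      v dl ≤ s * Bt v ^ sqB e *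
        (∏ j, ∏ i, (max (v (lawP W e false ξ ψ x0 ψ0 j i).1)
          (v (lawP W e false ξ ψ x0 ψ0 j i).2)) ^ M * Mv v (ξ j i) ^ (4 ^ e j + 2)) *
        (∏ j, ρ j ^ (k0 * 4 ^ e j)) * (∏ i, Mv v (x0 i) ^ δ) * ∏ h, (1 / r h) ^ α h

/-- **GLOBB** (the global inequality). Hypotheses allowed: HHO, S_CHB (`rho D f v x = rhs f D v x` by `rfl`).
PROOF. As GLOBT / GINQ (landed: `Pool/Agent/Helper46/SG2/GLOBT.lean`, `Pool/Agent/Helper70/SGE/GLOB.lean`): logarithms of the local inequality with `s = ⨆ α, v (c α)`, sum over the places (`PS_mono`, `PS_add`, `PS_sum`, `PS_log` = product formula for `dl`, `PS_log_iSup` and HHO for `c`, `PS_log_Mv`);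
`PS (log rho) = - cH D f (ξ j)` (S_CHB); `log (1 / rad) = - log rho + log B' + 2 log Mv`. `C` = maximum of `PS (log Bt)`, `PS (log B')`, `[K:ℚ]`. -/
def GLOBB : Prop :=
  ∀ (K : Type) [Field K] [NumberField K] (σ : Type) [Fintype σ] [DecidableEq σ]
    (J : Type) [Fintype J] (D : ℕ) (f : J → MvPolynomial σ K),
    (∀ j i, degreeOf i (f j) ≤ D) → ∀ (n M δ k0 : ℕ) (Bt B' : AbsoluteValue K ℝ → ℝ),
    PlC Bt → PlC B' → ∃ C : ℝ, 0 ≤ C ∧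
    ∀ (e : Fin n → ℕ) (ι : Type) [Finite ι] (c : ι → K) (A : ℝ) (ξ : Fin n → σ → K)
      (x0 : σ → K) (lo : Fin n → σ → K × K) (α : Fin n × σ →₀ ℕ) (dl : K), c ≠ 0 → 0 ≤ A →
      (∀ i, IsIntegral ℤ (c i)) → (∀ i, NumberField.house (c i) ≤ Real.exp A) → dl ≠ 0 →
      (∀ j i, (lo j i).1 ≠ 0 ∨ (lo j i).2 ≠ 0) →
      (∀ j i, FS (fun v => Real.log (max (v (lo j i).1) (v (lo j i).2)))) →
      (∀ j, ∃ k, eval (ξ j) (f k) ≠ 0) →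
      (∀ (v : AbsoluteValue K ℝ) (s : ℝ), (∀ i, v (c i) ≤ s) →
        v dl ≤ s * Bt v ^ sqB e *
        (∏ j, ∏ i, (max (v (lo j i).1) (v (lo j i).2)) ^ M * Mv v (ξ j i) ^ (4 ^ e j + 2)) *
        (∏ j, rho D f v (ξ j) ^ (k0 * 4 ^ e j)) * (∏ i, Mv v (x0 i) ^ δ) *
        ∏ h, (1 / rad D f (B' v) v ξ h) ^ α h) →
      ∑ j, (k0 : ℝ) * 4 ^ e j * cH D f (ξ j) ≤
        ∑ j, ∑ i, (M * PS (fun v => Real.log (max (v (lo j i).1) (v (lo j i).2))) +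
          ((4 : ℝ) ^ e j + 2) * logHeight₁ (ξ j i)) + δ * ∑ i, logHeight₁ (x0 i) +
        ∑ h, (α h : ℝ) * (C + 2 * logHeight₁ (ξ h.1 h.2) + cH D f (ξ h.1)) +
        C * (sqB e + A)

/-- **NUMB** (numbers). No hypotheses.
PROOF. Real arithmetic. `q_0 = max q_j ≤ T/K0`, `1 ≤ q_j`, `T ≥ K0`. `y j` = `|x_j|²`, `g j` = `cH`, `a h` = `α_h`, `∑_h a_h / q_(h.1) < 1`, so `∑_i a (j,i) ≤ q_j`. The hypotheses say (`X h` = `logHeight₁ (ξ h)`, `0 ≤ X (j,i)`, `∑_i X (j,i) ≤ y j + m c0`):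
`∑ k0 q_j g_j ≤ M ∑_j (θ T + m c0) + ∑_j (q_j + 2)(y_j + m c0) + δ (2T + m c0) + ∑_h a_h (C + 2 X_h + g_(h.1)) + C (sq + CA q_0)`. `∑_h a_h g ≤ ∑_j q_j g_j` (`g ≥ 0`), `∑_h a_h C ≤ n q_0 C` , `∑_h a_h X_h ≤ ∑_j (∑_i a_(j,i)) (y_j + m c0)` and `(∑_i a_(j,i)) y_j ≤ ((∑_i a_(j,i))/q_j) 2T`, sum `≤ 2T`; `q_j y_j ≤ 2T`,
`2 y_j ≤ 4T/q_j ≤ 4T/K0`. So `(k0 - 1) n ε T ≤ ∑ (k0 - 1) q_j g_j ≤ n M θ T + 2 n T + 2 δ T + 4 T + C₁ T / K0` with `C₁` depending on everything else (all terms with a factor `q_0 ≤ T/K0` or constants `≤ T/K0 * ..`, as `1 ≤ q_0`); with `δ ≤ n`, `M θ ≤ 1`: `≤ 9 n T + C₁ T/K0 < 12 n T` for `K0 > C₁`. Contradiction to `12 ≤ (k0 - 1) ε`. -/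
def NUMB : Prop :=
  ∀ (m n M δ k0 : ℕ) (ε θ c0 C CA : ℝ), 1 ≤ n → δ ≤ n → 0 < ε → 12 ≤ ((k0 : ℝ) - 1) * ε →
    0 ≤ θ → M * θ ≤ 1 → 0 ≤ c0 → 0 ≤ C → 0 ≤ CA → ∃ K0 : ℝ, ∀ (σ : Type) [Fintype σ]
      (q y g w : Fin n → ℝ) (y0 q0 T R A X0s : ℝ) (X a : Fin n × σ → ℝ), Fintype.card σ = m →
      (∀ j, 1 ≤ q j ∧ q j ≤ q0 ∧ K0 ≤ q j) → (∃ j, q j = q0) → K0 * q0 ≤ T →
      (∀ j, 0 ≤ y j ∧ q j * y j ≤ 2 * T) → (∀ j, ε * T ≤ q j * g j) → (∀ j, 0 ≤ g j) →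
      (∀ j, w j ≤ θ * T + m * c0) → X0s ≤ 2 * T + m * c0 →
      (∀ h, 0 ≤ X h) → (∀ j, ∑ i, X (j, i) ≤ y j + m * c0) → (∀ h, 0 ≤ a h) →
      ∑ h : Fin n × σ, a h / q h.1 < 1 → A ≤ CA * q0 →
      ∑ j, (k0 : ℝ) * q j * g j ≤
        ∑ j, (M * w j + (q j + 2) * ∑ i, X (j, i)) + δ * X0s +
        ∑ h : Fin n × σ, a h * (C + 2 * X h + g h.1) + C * (∑ j, q j + A) → False

/-! ## Relations for `x_0` (section 3) -/

/-- **PSDV** (pseudo-division). No hypotheses (SCAL of `Helper77.SGC` is the two-variable scaling; its proof works for any finite `σ`).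
PROOF. Write `g = ∑_k a_k X_i^k`, `a_k` in the variables of `I0`. A non-zero `a_k` has degrees `≤ D0` and its coefficients are among those of `g`, so `log PH (a_k) ≤ log PH g ≤ A` and `a_k(x0) ≠ 0` (`¬ Lo I0 D0 A x0`). Let `dd` = the largest `k` with `a_k ≠ 0`; `dd ≥ 1` because `g(x0) = 0 ≠ a_0(x0)` otherwise. Scale `g` by a constant
so that the coefficients are integral of house `≤ exp (C (1 + A))` (SCAL; the number of monomials is `≤ (D0+1)^|σ|`). By induction on `k`: `a_dd^k X_i^k ≡ ∑_(t < dd) b_(k,t) X_i^t` at `x0`: `b_(k,t) ∈ K[X_(I0)]` of degrees `≤ k D0`, integral coefficients, house `≤ (C' house(g))^k`: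
for `k < dd`: `b_(k,t) = a_dd^k` if `t = k`, else `0`; step: `a_dd^(k+1) x^(k+1) = a_dd (∑_t b_(k,t) x^(t+1))`, replace `a_dd x^dd = - ∑_(t<dd) a_t x^t`. Finally multiply by `a_dd^(E-k)`: `R k t := a_dd^(E-k) b_(k,t)`, degrees `≤ E D0`, `b := a_dd(x0)^E`. Houses: the sum of the houses of the coefficients is
submultiplicative (at most `(E D0 + 1)^|σ|` monomials). -/
def PSDV : Prop :=
  ∀ (K : Type) [Field K] [NumberField K] (σ : Type) [Fintype σ] [DecidableEq σ] (D0 E : ℕ),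
    ∃ C : ℝ, 0 ≤ C ∧ ∀ (I0 : Finset σ) (x0 : σ → K) (A : ℝ) (i : σ), 0 ≤ A → i ∉ I0 →
      ¬ Lo I0 D0 A x0 → Lo (insert i I0) D0 A x0 →
      ∃ (b : K) (R : ℕ → ℕ → MvPolynomial σ K), b ≠ 0 ∧
        (∀ k t h, (R k t).degreeOf h ≤ E * D0) ∧ (∀ k t h, h ∉ I0 → (R k t).degreeOf h = 0) ∧
        (∀ k t s, IsIntegral ℤ (coeff s (R k t)) ∧
          NumberField.house (coeff s (R k t)) ≤ Real.exp (C * (1 + A))) ∧
        ∀ k ≤ E, b * x0 i ^ k = ∑ t ∈ Finset.range (D0 + 1), eval x0 (R k t) * x0 i ^ t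

/-- **RELP** (section 3). Hypothesis allowed: PSDV.
PROOF. `m = |σ|`. PSDV for every `i ∉ I0` (`b_i`, `R_i`). For `g ∈ box E`: `(∏_(i ∉ I0) b_i) ∏_h x0_h^(g_h) = ∏_(h ∈ I0) x0_h^(g_h) ∏_(i ∉ I0) ∑_(t_i ≤ D0) R_i(g_i, t_i)(x0) x0_i^(t_i) = ∑_(t : {i ∉ I0} → Fin (D0+1)) (∏_i x0_i^(t_i)) P_(g,t)(x0)`,
`P_(g,t) := ∏_(h ∈ I0) X_h^(g_h) ∏_(i ∉ I0) R_i(g_i, t_i) ∈ K[X_(I0)]`, degrees `≤ E + m E D0` in the variables of `I0` and `0` in the others. `U := ({i // i ∉ I0} → Fin (D0 + 1)) × ({h // h ∈ I0} → Fin (E * (1 + m * D0) + 1))`, `ν (t, u) g := coeff (u extended by 0) (P_(g,t))`, `#U ≤ (D0+1)^m (E(1+m D0)+1)^|I0|`.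
If all `∑_(g ∈ box E) ν (t,u) g * G g = 0` then `∏ b_i * ∑ G_g x0^g = ∑_t x0^t ∑_u (∑_g G_g ν (t,u) g) x0^u = 0`, `∏ b_i ≠ 0`. Integral; house: a product of at most `m` polynomials with at most `(E D0 + 1)^m` monomials of house `≤ exp (C (1 + A))`. -/
def RELP : Prop :=
  ∀ (K : Type) [Field K] [NumberField K] (σ : Type) [Fintype σ] [DecidableEq σ] (D0 E : ℕ),
    ∃ C : ℝ, 0 ≤ C ∧ ∀ (I0 : Finset σ) (x0 : σ → K) (A : ℝ), 0 ≤ A → ¬ Lo I0 D0 A x0 →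
      (∀ i, i ∉ I0 → Lo (insert i I0) D0 A x0) →
      ∃ (U : Type) (_ : Fintype U) (ν : U → (σ → ℕ) → K),
        Fintype.card U ≤ (D0 + 1) ^ Fintype.card σ *
          (E * (1 + Fintype.card σ * D0) + 1) ^ I0.card ∧ RedD x0 E ν (C * (1 + A))

/-! ## Theorem PG -/

/-- **PG** (sections 1 and 7). Assembly by helper68 from AUXB, ZEB, TAYN, LAWB, LOCB, GLOBB, NUMB, CHB, ELAW, ELOC, LAWH, EUP. -/
def PGB : Prop :=
  ∀ (K : Type) [Field K] [NumberField K] [DecidableEq K] (σ : Type) [Fintype σ] [DecidableEq σ]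
    [Nonempty σ] (W : σ → Affine K), (∀ i, (W i).IsElliptic) → ∀ (H : ∀ i, (W i).Point → ℝ)
    (c₀ : ℝ), (∀ i, CanH (W i) (H i) c₀) → ∀ (Df : ℕ) (J : Type) [Fintype J]
    (f : J → MvPolynomial σ K), 1 ≤ Df → (∀ j i, degreeOf i (f j) ≤ Df) →
    ∀ (p c d : ℕ) (B' : AbsoluteValue K ℝ → ℝ), 0 < d → PlC B' → p ≤ Fintype.card σ →
    (∀ N : ℕ, ∃ (T : Type) (_ : Fintype T) (gr : T → ℕ) (E : T → MvPolynomial σ K)
        (r : T → (σ → ℕ) → K), CenR f Df p c d B' N T gr E r) →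
    ∀ (n M δ k0 S0 : ℕ) (ε C0 : ℝ), 1 ≤ M → 1 ≤ δ → δ ≤ n + 1 → 0 < ε →
    12 ≤ ((k0 : ℝ) - 1) * ε → 0 ≤ C0 →
    2 * (n + 1) * 4 ^ Fintype.card σ * c * k0 ^ p * (2 * M + 2) ^ (Fintype.card σ - p) * S0 ≤
      (M + 1) ^ Fintype.card σ * δ ^ Fintype.card σ →
    ∃ (D' : ℕ) (C' θ K0 : ℝ), 0 < θ ∧ 0 ≤ C' ∧
      ∀ (x : Fin (n + 1) → ∀ i, (W i).Point) (x0 : ∀ i, (W i).Point) (e : Fin (n + 1) → ℕ)
        (T : ℝ), Al H Df f (n + 1) θ ε K0 x x0 e T → ∀ (U : Type) [Fintype U]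
        (ν : U → (σ → ℕ) → K), Fintype.card U ≤ S0 →
        RedD (xs x0) (2 * M + δ) ν (C0 * 4 ^ e 0) →
        (∃ j, LowS D' (C' * (4 ^ e 0 / 4 ^ e j)) (xs (x j))) ∨ LowS (δ - 1) (C' * 4 ^ e 0) (xs x0)

end

end Pool.Agent.Helper68.VN
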