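import Pool.Agent.Helper42.SG.GoalsP
import Pool.Agent.Helper76.SGC.Goals
import Pool.Agent.Helper77.SGC.Goals
import Pool.Agent.Helper92.PN.CenDefs
import Pool.Agent.Helper92.PN.Cor

/-!
# Project HC, theorem PG (MP_a41896_nt): definitions

The paper is `MP_a41896_hc_helper60.md` (team store), sections 3, 4, 5, 7.  The coordinates are indexed by a finite type `σ`
(`m = |σ|` factors `W i`), there are `n` blocks (points `x_j`, `j : Fin n`) with `q_j = 4 ^ e j`, and a reference point `x_0`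
which is CONSTANT (`X0 i = algebraMap K A (x0 i)`).
-/

set_option autoImplicit false

open MvPolynomial

namespace Pool.Agent.Helper68.VN

open WeierstrassCurve Height
open Pool.Agent.Helper29.BL Pool.Agent.Helper92.Ru Pool.Agent.Helper42.SG
open Pool.Agent.Helper77.SGC (N0)

noncomputable section

/-! ## The auxiliary function -/

section aux

/-- the curves over the algebra `A` -/
def mapS {K : Type} [Field K] (A : Type) [CommRing A] [Algebra K A] {σ : Type}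
    (W : σ → Affine K) : σ → WeierstrassCurve A := fun i => (W i).map (algebraMap K A)

/-- constants -/
def cn {K : Type} [Field K] (A : Type) [CommRing A] [Algebra K A] {σ : Type} (x : σ → K) :
    σ → A := fun i => algebraMap K A (x i)

/-- the indices of one block: `(l_i, m_i)`, `l_i < 4 ^ e`, `m_i ≤ M` -/
abbrev Ax (σ : Type) (M e : ℕ) : Type := σ → Fin (4 ^ e) × Fin (M + 1)

/-- the index set of the unknowns: `α.1 j` the indices of the block `j`, `α.2` the exponents of `X0` -/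
abbrev Ix (σ : Type) (n M δ : ℕ) (e : Fin n → ℕ) : Type :=
  (∀ j : Fin n, Ax σ M (e j)) × (σ → Fin δ)

/-- all exponents with entries `≤ N` -/
def box (σ : Type) [Fintype σ] [DecidableEq σ] (N : ℕ) : Finset (σ → ℕ) :=
  Fintype.piFinset fun _ : σ => Finset.range (N + 1)

/-- `Σ_j q_j` -/
def sqB {n : ℕ} (e : Fin n → ℕ) : ℕ := ∑ j, 4 ^ e j

variable {σ : Type} [Fintype σ] {A : Type} [CommRing A]

/-- the function of one block with the indices `x` -/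
def blkB (W : σ → WeierstrassCurve A) (M e : ℕ) (lam : σ → Bool) (X Ψ X0 Ψ0 : σ → A)
    (x : Ax σ M e) : A :=
  ∏ i, (X i ^ (x i).1.val *
    ((law (W i) e (lam i) (X i) (X0 i) (Ψ i * Ψ0 i)).1 ^ (M - (x i).2.val) *
      (law (W i) e (lam i) (X i) (X0 i) (Ψ i * Ψ0 i)).2 ^ (x i).2.val))

/-- the function `P^λ` -/
def PB [DecidableEq σ] (W : σ → WeierstrassCurve A) (n M δ : ℕ) (e : Fin n → ℕ)
    (c : Ix σ n M δ e → A) (lam : Fin n → σ → Bool) (X Ψ : Fin n → σ → A) (X0 Ψ0 : σ → A) : A :=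
  ∑ α : Ix σ n M δ e, c α *
    (∏ j, blkB W M (e j) (lam j) (X j) (Ψ j) X0 Ψ0 (α.1 j)) * ∏ i, X0 i ^ (α.2 i).val

/-- the points are on the curves -/
structure OnB {K : Type} [Field K] [Algebra K A] (W : σ → Affine K) {n : ℕ}
    (X Ψ : Fin n → σ → A) (X0 Ψ0 : σ → A) : Prop where
  blk : ∀ j i, Ψ j i ^ 2 = Bf (mapS A W i) (X j i)
  ref : ∀ i, Ψ0 i ^ 2 = Bf (mapS A W i) (X0 i)

end aux

/-! ## Arrays, centre data, relations, conditions -/

section arrays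

variable {K : Type} [Field K] {σ : Type}

/-- the coefficients of the laws: `S i e l μ s g a m` is the coefficient of `η^μ x^s c^g` in `x^a (L_1)^(M-m) (L_2)^m`
(curve `W i`, exponent `e`, law `l`); `N0 M e = 2 * 4^e * M + 4^e` -/
structure ArS (W : σ → Affine K) (B : AbsoluteValue K ℝ → ℝ) (D M : ℕ)
    (S : σ → ℕ → Bool → Fin 2 → ℕ → ℕ → ℕ → ℕ → K) : Prop where
  deg : ∀ i e l μ s g a m, S i e l μ s g a m ≠ 0 → s + 2 * μ.val ≤ N0 M e ∧ g + 2 * μ.val ≤ 2 * M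
  bd : ∀ i e l μ s g a m v, v (S i e l μ s g a m) ≤ B v ^ (4 ^ e * (M + 1))
  int : ∀ i e l μ s g a m, IsIntegral ℤ ((D : K) ^ (4 ^ e * (M + 1)) * S i e l μ s g a m)
  exp : ∀ i e l a m, a < 4 ^ e → m ≤ M → ∀ (A : Type) [CommRing A] [Algebra K A] (x c η : A),
    η ^ 2 = Bf (mapS A W i) x * Bf (mapS A W i) c →
    x ^ a * ((law (mapS A W i) e l x c η).1 ^ (M - m) * (law (mapS A W i) e l x c η).2 ^ m) =
      ∑ μ : Fin 2, ∑ s ∈ Finset.range (N0 M e + 1), ∑ g ∈ Finset.range (2 * M + 1),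
        algebraMap K A (S i e l μ s g a m) * (η ^ μ.val * x ^ s * c ^ g)

/-- the centre data for the box size `N` (`CEN` with exponents as functions) -/
structure CenR [NumberField K] [Fintype σ] {J : Type} (f : J → MvPolynomial σ K) (D p c d : ℕ)
    (B : AbsoluteValue K ℝ → ℝ) (N : ℕ) (T : Type) [Fintype T] (gr : T → ℕ)
    (E : T → MvPolynomial σ K) (r : T → (σ → ℕ) → K) : Prop where
  card : Fintype.card T ≤ c ^ (N + 1)
  bad : ∀ k : ℕ, Nat.card {t : T // gr t < k} ≤ c * k ^ p * (N + 1) ^ (Fintype.card σ - p)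
  bd : ∀ v t s, v (r t s) ≤ B v ^ (N + 1)
  int : ∀ t s, IsIntegral ℤ ((d : K) ^ (N + 1) * r t s)
  exp : ∀ s : σ → ℕ, (∀ i, s i ≤ N) →
    (∏ i, X i ^ s i : MvPolynomial σ K) = ∑ t, C (r t s) * E t
  nrm : ∀ (v : AbsoluteValue K ℝ) (A : Type) [CommRing A] [Algebra K A] (Nm : A → ℝ → Prop),
    NFr v Nm → ∀ (X : σ → A) (a : σ → ℝ) (ρ : ℝ), (∀ i, 1 ≤ a i) → 0 < ρ → ρ ≤ 1 →
    (∀ i, Nm (X i) (a i)) → (∀ j, Nm (aeval X (f j)) (ρ * ∏ i, a i ^ D)) →
    ∀ t, Nm (aeval X (E t)) (B v ^ (N + 1) * (∏ i, a i ^ N) * ρ ^ gr t)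

/-- the coefficient of `∏ (Ψ_i Ψ0_i)^(μ_i) * E t * ∏ X0_i^(g_i)` in the block function with the indices `x` (`r = r t`) -/
def Gam [Fintype σ] [DecidableEq σ] (S : σ → ℕ → Bool → Fin 2 → ℕ → ℕ → ℕ → ℕ → K) (M e : ℕ)
    (r : (σ → ℕ) → K) (l : σ → Bool) (μ : σ → Fin 2) (g : σ → ℕ) (x : Ax σ M e) : K :=
  ∑ s ∈ box σ (N0 M e), r s *
    ∏ i, S i e (l i) (μ i) (s i) (g i) (x i).1.val (x i).2.val

/-- relation data for the point `x0`: the forms `ν u` on polynomials of partial degrees `≤ E` -/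
structure RedD [NumberField K] [Fintype σ] [DecidableEq σ] (x0 : σ → K) (E : ℕ) {U : Type}
    (ν : U → (σ → ℕ) → K) (H : ℝ) : Prop where
  int : ∀ u g, IsIntegral ℤ (ν u g)
  hs : ∀ u g, NumberField.house (ν u g) ≤ Real.exp H
  red : ∀ G : (σ → ℕ) → K, (∀ u, ∑ g ∈ box σ E, ν u g * G g = 0) →
    ∑ g ∈ box σ E, G g * ∏ i, x0 i ^ g i = 0

/-- the conditions on `c` -/
def CondB [Fintype σ] [DecidableEq σ] (S : σ → ℕ → Bool → Fin 2 → ℕ → ℕ → ℕ → ℕ → K)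
    (n M δ k0 : ℕ) (e : Fin n → ℕ) (T : Fin n → Type) (gr : ∀ j, T j → ℕ)
    (r : ∀ j, T j → (σ → ℕ) → K) (U : Type) (ν : U → (σ → ℕ) → K)
    (c : Ix σ n M δ e → K) : Prop :=
  ∀ (j : Fin n) (α0 : ∀ j : Fin n, Ax σ M (e j)) (l : σ → Bool) (μ : σ → Fin 2) (t : T j),
    gr j t < k0 * 4 ^ e j → ∀ u : U,
    ∑ x : Ax σ M (e j), ∑ β : σ → Fin δ, c (Function.update α0 j x, β) *
      ∑ g ∈ box σ (2 * M), Gam S M (e j) (r j t) l μ g x * ν u (fun i => g i + (β i).val) = 0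

/-- the coefficient of `∏_j (∏_i (Ψ Ψ0)^(μ j i) * E (t j))` in `P^λ` (an element of `K`, the point `x0` is constant) -/
def BrB [Fintype σ] [DecidableEq σ] (S : σ → ℕ → Bool → Fin 2 → ℕ → ℕ → ℕ → ℕ → K)
    (n M δ : ℕ) (e : Fin n → ℕ) (T : Fin n → Type) (r : ∀ j, T j → (σ → ℕ) → K)
    (c : Ix σ n M δ e → K) (x0 : σ → K) (lam : Fin n → σ → Bool) (μ : Fin n → σ → Fin 2)
    (t : ∀ j, T j) : K :=
  ∑ α : Ix σ n M δ e, c α *
    (∏ j, ∑ g ∈ box σ (2 * M), Gam S M (e j) (r j (t j)) (lam j) (μ j) g (α.1 j) *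
      ∏ i, x0 i ^ g i) * ∏ i, x0 i ^ (α.2 i).val

end arrays

/-! ## The key inequality -/

section key

variable {K : Type} [Field K] {σ : Type} [Fintype σ] [DecidableEq σ]

/-- the bound in the key inequality -/
def keyV (v : AbsoluteValue K ℝ) {n : ℕ} (M δ k0 : ℕ) (e : Fin n → ℕ) (a : Fin n → σ → ℝ)
    (ρ : Fin n → ℝ) (x0 : σ → K) : ℝ :=
  (∏ j, ((∏ i, a j i) ^ (2 * 4 ^ e j * M + 4 ^ e j + 2) * ρ j ^ (k0 * 4 ^ e j))) *
    ∏ i, Mv v (x0 i) ^ (2 * n * M + δ)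

/-- the key inequality in every norm frame, for every law vector -/
def KeyB {J : Type} (W : σ → Affine K) (f : J → MvPolynomial σ K) (D n M δ k0 : ℕ)
    (x0 ψ0 : σ → K) (e : Fin n → ℕ) (c : Ix σ n M δ e → K) (B : AbsoluteValue K ℝ → ℝ) : Prop :=
  ∀ (v : AbsoluteValue K ℝ) (A : Type) [CommRing A] [Algebra K A] (N : A → ℝ → Prop), NFr v N →
    ∀ (X Ψ : Fin n → σ → A) (a : Fin n → σ → ℝ) (ρ : Fin n → ℝ) (s b : ℝ),
      OnB W X Ψ (cn A x0) (cn A ψ0) → (∀ j i, 1 ≤ a j i) → 1 ≤ b →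
      (∀ j, 0 < ρ j ∧ ρ j ≤ 1) → (∀ j i, N (X j i) (a j i)) →
      (∀ j i, N (Ψ j i) (b * a j i ^ 2)) → (∀ i, v (ψ0 i) ≤ b * Mv v (x0 i) ^ 2) →
      (∀ j k, N (aeval (X j) (f k)) (ρ j * ∏ i, a j i ^ D)) → (∀ α, v (c α) ≤ s) →
      ∀ lam : Fin n → σ → Bool,
      N (PB (mapS A W) n M δ e (fun α => algebraMap K A (c α)) lam X Ψ (cn A x0) (cn A ψ0))
        (s * b ^ (2 * n * Fintype.card σ) * B v ^ sqB e * keyV v M δ k0 e a ρ x0)

end key

/-! ## Taylor expansions, the centre -/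

section taylor

variable {K : Type} [Field K] {σ : Type} [Fintype σ]

/-- `ρ_v(x) = min(1, max_j |f_j(x)|_v / ∏ M_v(x_i)^D)` -/
def rho {J : Type} (D : ℕ) (f : J → MvPolynomial σ K) (v : AbsoluteValue K ℝ) (x : σ → K) : ℝ :=
  min 1 ((⨆ j, v (eval x (f j))) / (∏ i, Mv v (x i)) ^ D)

/-- the radii of the Taylor expansions -/
def rad {J : Type} (D : ℕ) (f : J → MvPolynomial σ K) (b : ℝ) (v : AbsoluteValue K ℝ) {n : ℕ}
    (ξ : Fin n → σ → K) (h : Fin n × σ) : ℝ :=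
  rho D f v (ξ h.1) / (b * Mv v (ξ h.1 h.2) ^ 2)

/-- `(X, Ψ)` is the Taylor expansion of the points `(ξ, ψ)` -/
structure TayB (W : σ → Affine K) {n : ℕ} (ξ ψ : Fin n → σ → K)
    (X Ψ : Fin n → σ → MvPowerSeries (Fin n × σ) K) : Prop where
  on : ∀ j i, Ψ j i ^ 2 = Bf (mapS _ W i) (X j i)
  eqX : ∀ j i, X j i =
    MvPowerSeries.C (ξ j i) + MvPowerSeries.C (4 * ψ j i ^ 2) * MvPowerSeries.X (j, i)
  cst : ∀ j i, MvPowerSeries.constantCoeff (Ψ j i) = ψ j i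

/-- the two components of the law of the variable `(j, i)` at the points -/
def lawP (W : σ → Affine K) {n : ℕ} (e : Fin n → ℕ) (b : Bool) (ξ ψ : Fin n → σ → K)
    (x0 ψ0 : σ → K) (j : Fin n) (i : σ) : K × K :=
  law (mapS K W i) (e j) b (ξ j i) (x0 i) (ψ j i * ψ0 i)

/-- `P^λ` of the Taylor series -/
def PT [DecidableEq σ] (W : σ → Affine K) (n M δ : ℕ) (e : Fin n → ℕ) (c : Ix σ n M δ e → K)
    (lam : Fin n → σ → Bool) (X Ψ : Fin n → σ → MvPowerSeries (Fin n × σ) K) (x0 ψ0 : σ → K) :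
    MvPowerSeries (Fin n × σ) K :=
  PB (mapS _ W) n M δ e (fun α => algebraMap K _ (c α)) lam X Ψ (cn _ x0) (cn _ ψ0)

/-- the specialisation `X_(0i) = x0_i` of a polynomial in the `X_(ji)` and the `X_(0i)` -/
def spc {n : ℕ} (x0 : σ → K) :
    MvPolynomial ((Fin n × σ) ⊕ σ) K →ₐ[K] MvPolynomial (Fin n × σ) K :=
  aeval (Sum.elim X fun i => C (x0 i))

end taylor

/-! ## Points -/

section points

variable {K : Type} [Field K] [NumberField K] [DecidableEq K] {σ : Type} [Fintype σ]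

/-- `|z|²` -/
def nz {W : σ → Affine K} (H : ∀ i, (W i).Point → ℝ) (z : ∀ i, (W i).Point) : ℝ :=
  ∑ i, H i (z i)

/-- the `x`-coordinates of a point -/
def xs {W : σ → Affine K} (z : ∀ i, (W i).Point) : σ → K := fun i => xc (z i)

/-- `x` is a zero of a non-zero polynomial of partial degrees `≤ D` and height `≤ A` -/
def LowS (D : ℕ) (A : ℝ) (x : σ → K) : Prop :=
  ∃ F : MvPolynomial σ K, F ≠ 0 ∧ (∀ i, F.degreeOf i ≤ D) ∧ eval x F = 0 ∧
    Real.log (PH F) ≤ A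

/-- good points: no component is of order `1` or `2`, and the point is not on the centre -/
def Good {J : Type} {W : σ → Affine K} (f : J → MvPolynomial σ K) (z : ∀ i, (W i).Point) : Prop :=
  (∀ i, z i ≠ 0 ∧ ps (z i) ≠ 0) ∧ ∃ j, eval (xs z) (f j) ≠ 0

end points

end

end Pool.Agent.Helper68.VN
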