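import Pool.Agent.Helper68.VN.Defs

/-!
# Project HC, theorem PG (MP_a41896_nt), module A: the auxiliary function and the key inequality

Sections 4.1 - 4.3 of `MP_a41896_hc_helper60.md`.  All goals are independent (named goals may be hypotheses of other goals as
indicated).  `q_j = 4 ^ e j`, `m = |σ|`.  The landed proofs of the two-factor case are in `Pool/Agent/*/SG2/` (ARRT, CARDT, SIE1T, EXPT,
VANT, BRNT, CNTT, KEYIT) and can be copied and adapted; here the structure is simpler (no `G_m` factors, `x_0` constant, so `BrB` is an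
element of `K`).
-/

set_option autoImplicit false

open MvPolynomial

namespace Pool.Agent.Helper68.VN

open WeierstrassCurve Height
open Pool.Agent.Helper29.BL Pool.Agent.Helper92.Ru Pool.Agent.Helper42.SG
open Pool.Agent.Helper77.SGC (N0 HOUS)
open Pool.Agent.Helper76.SGC (NFB)
open Pool.Agent.Helper92.PN (CEN)

noncomputable section

/-- **ARRB** (the arrays exist). Hypothesis allowed: ECOEF.
PROOF. ECOEF for every `W i` (it gives `B_i`, `D_i` and, for every `e, M, m ≤ M, l`, an array `G μ i' g`; choose them all with `Classical.choice`).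
`S i e l μ s g a m := if a ≤ s ∧ a < 4^e ∧ m ≤ M then G_(i,e,M,m,l) μ (s - a) g else 0`. `deg`: `s + 2μ = a + ((s - a) + 2μ) ≤ (4^e - 1) + 2·4^e M ≤ N0`. `exp`: multiply the
expansion of ECOEF (ring `A`, `mapS A W i = (W i).map (algebraMap K A)` by `rfl`) by `x^a` and shift the summation index `s = a + i'` (terms with `S = 0` may be added).
`B := ∏ i, B_i` (all `B_i v ≥ 1`, so `B_i v ≤ B v`; a finite product of place constants is one), `D := ∏ i, D_i`. Compare the landed ARRT: `Pool/Agent/Helper90/SG2/ARRT.lean`. -/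
def ARRB : Prop :=
  ∀ (K : Type) [Field K] [NumberField K] (σ : Type) [Fintype σ] (W : σ → Affine K),
    ∃ (B : AbsoluteValue K ℝ → ℝ) (D : ℕ), PlC B ∧ 0 < D ∧
      ∀ M : ℕ, ∃ S : σ → ℕ → Bool → Fin 2 → ℕ → ℕ → ℕ → ℕ → K, ArS W B D M S

/-- **CENX**: `CEN` (helper92) with exponents which are functions `σ → ℕ`: `r' t s := r t (Finsupp.equivFunOnFinite.symm s)`,
`monomial g 1 = ∏ i, X i ^ g i`. Hypothesis allowed: CEN. -/
def CENX : Prop :=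
  ∀ (K : Type) [Field K] [NumberField K] (σ : Type) [Fintype σ] (J : Type) [Fintype J]
    (D p : ℕ) (f : J → MvPolynomial σ K), 1 ≤ p → p ≤ Fintype.card σ →
    (∀ j i, degreeOf i (f j) ≤ D) → Pool.Agent.Helper5.UN.CodimGT D f (p - 1) →
    ∃ (c d : ℕ) (B : AbsoluteValue K ℝ → ℝ), 1 ≤ c ∧ 0 < d ∧ PlC B ∧
      ∀ N : ℕ, ∃ (T : Type) (_ : Fintype T) (gr : T → ℕ) (E : T → MvPolynomial σ K)
        (r : T → (σ → ℕ) → K), CenR f D p c d B N T gr E r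

/-- the rows of the Siegel system: block `j`, indices of the other blocks, laws, parities, bad index `t`, form `u` -/
abbrev RowsB (σ : Type) (n M k0 : ℕ) (e : Fin n → ℕ) (T : Fin n → Type) (gr : ∀ j, T j → ℕ)
    (U : Type) : Type :=
  Σ j : Fin n, (∀ j' : {j' : Fin n // j' ≠ j}, Ax σ M (e j'.val)) ×
    (σ → Bool) × (σ → Fin 2) × {t : T j // gr j t < k0 * 4 ^ e j} × U

/-- **CARDB** (the count, (4.2)). No hypotheses.
PROOF. `m = |σ|`, `q_j = 4^(e j)`; `#(Ax σ M (e j)) = (q_j (M+1))^m`, `#Ix = ∏_j (q_j (M+1))^m * δ^m`. The number of the rows with block `j` is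
`≤ (∏_(j' ≠ j) (q_j' (M+1))^m) * 2^m * 2^m * c (k0 q_j)^p (q_j (2M+2))^(m-p) * S0` (`N0 M e + 1 = 2 q M + q + 1 ≤ q (2M+2)`), and `q_j^p q_j^(m-p) = q_j^m` (`p ≤ m`):
`2 n * rows_j ≤ ∏_(j'≠j) (q_j'(M+1))^m * q_j^m * (2 n 4^m c k0^p (2M+2)^(m-p) S0) ≤ ∏_(j'≠j) (q_j' (M+1))^m * q_j^m (M+1)^m δ^m = #Ix`.
Sum over the `n` blocks: `2 n * rows ≤ n * #Ix`, and `n ≥ 1` (if `n = 0` there are no rows). -/
def CARDB : Prop :=
  ∀ (σ : Type) [Fintype σ] [DecidableEq σ] (n M δ k0 p c S0 : ℕ) (e : Fin n → ℕ)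
    (T : Fin n → Type) [∀ j, Fintype (T j)] (gr : ∀ j, T j → ℕ) (U : Type) [Fintype U],
    p ≤ Fintype.card σ →
    (∀ j, Nat.card {t : T j // gr j t < k0 * 4 ^ e j} ≤
      c * (k0 * 4 ^ e j) ^ p * (N0 M (e j) + 1) ^ (Fintype.card σ - p)) →
    Fintype.card U ≤ S0 →
    2 * n * 4 ^ Fintype.card σ * c * k0 ^ p * (2 * M + 2) ^ (Fintype.card σ - p) * S0 ≤
      (M + 1) ^ Fintype.card σ * δ ^ Fintype.card σ →
    2 * Nat.card (RowsB σ n M k0 e T gr U) ≤ Nat.card (Ix σ n M δ e)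

/-- **SIEB** (the conditions can be solved). Hypotheses allowed: CARDB, HOUS (`Helper77.SGC`).
PROOF. As SIE1T (landed: `Pool/Agent/Helper55/SG2/SIE1T.lean`). `Pool.Agent.Helper68.Ru.siegel` with rows `RowsB σ n M k0 e T gr U`, unknowns `Ix σ n M δ e`. The row
`(j, α', l, μ, t, u)` stands for `α0 := α'` extended by anything at `j`; the entry at the unknown `(α, β)` is
`E * ∑_(g ∈ box (2M)) Gam S M (e j) (r j t) l μ g (α j) * ν u (g + β)` if `α j' = α' j'` for all `j' ≠ j`, and `0` otherwise; `E = (D * d)^(m' )` with a fixed exponent `m' = |σ| (M+1) sqB e + (2M+3) sqB e` (any exponent which clears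
the denominators of `Gam`: `D^(4^(e j) (M+1))` for each of the `|σ|` factors `S`, `d^(N0 + 1)` for `r`; `N0 M e + 1 ≤ 4^e (2M+2)`).
`v (Gam) ≤ cst v (#box) * (B' v)^(N0+1) * (B v)^(4^e (M+1) |σ|)`, so `v (E * Gam) ≤ (C' B B')(v)^(C' sqB e)` and by HOUS `house (E * Gam ..) ≤ b0^(C' sqB e)`; `house` is subadditive and submultiplicative (`Mathlib`: `NumberField.house_add_le`, `house_mul_le`;
used in the landed file), `house (ν) ≤ exp H`, the number of the `g` is `(2M+1)^m`. So entries are integral of house `≤ A := exp (C1 (sqB e + H))`, `A ≥ 1`. `#Ix ≤ exp (C2 sqB e)` (`4^e ≤ exp (2·4^e)`).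
A solution `c ≠ 0`, integral, house `≤ c1 (c1 #Ix A) ≤ exp (C (sqB e + H))` (`sqB e ≥ n ≥ 1`; if `n = 0` there are no conditions, take `c = 1` at one index). `mulVec = 0` in the row `(j, α', ..)` is, after splitting the sum over `α` into `α j = x` and the
others (`Function.update α0 j x`), `E *` (the left side of `CondB`), and `E ≠ 0`. `Ix` is not empty because `δ ≥ 1` (follows from the count hypothesis or `1 ≤ δ`). -/
def SIEB : Prop :=
  ∀ (K : Type) [Field K] [NumberField K] (σ : Type) [Fintype σ] [DecidableEq σ]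
    (W : σ → Affine K) (B B' : AbsoluteValue K ℝ → ℝ) (D d c : ℕ), (∀ v, 1 ≤ B v) →
    (∀ v, 1 ≤ B' v) → 0 < D → 0 < d → ∀ (J : Type) (f : J → MvPolynomial σ K)
    (Df n M δ k0 p S0 : ℕ), 1 ≤ n → 1 ≤ δ → p ≤ Fintype.card σ →
    2 * n * 4 ^ Fintype.card σ * c * k0 ^ p * (2 * M + 2) ^ (Fintype.card σ - p) * S0 ≤
      (M + 1) ^ Fintype.card σ * δ ^ Fintype.card σ →
    ∃ C : ℝ, 0 ≤ C ∧ ∀ (e : Fin n → ℕ) (S : σ → ℕ → Bool → Fin 2 → ℕ → ℕ → ℕ → ℕ → K)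
      (T : Fin n → Type) [∀ j, Fintype (T j)] (gr : ∀ j, T j → ℕ)
      (E : ∀ j, T j → MvPolynomial σ K) (r : ∀ j, T j → (σ → ℕ) → K) (U : Type) [Fintype U]
      (ν : U → (σ → ℕ) → K) (x0 : σ → K) (H : ℝ), ArS W B D M S →
      (∀ j, CenR f Df p c d B' (N0 M (e j)) (T j) (gr j) (E j) (r j)) →
      Fintype.card U ≤ S0 → 0 ≤ H → RedD x0 (2 * M + δ) ν H →
      ∃ cc : Ix σ n M δ e → K, cc ≠ 0 ∧ (∀ α, IsIntegral ℤ (cc α)) ∧
        (∀ α, NumberField.house (cc α) ≤ Real.exp (C * (sqB e + H))) ∧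
        CondB S n M δ k0 e T gr r U ν cc

/-- **BLKX** (expansion of one block). No hypotheses.
PROOF. `ArS.exp` for every `i : σ` with `x = X i`, `c = X0 i`, `η = Ψ i * Ψ0 i` (`η² = Bf Bf`), `a = (x i).1`, `m = (x i).2`; expand the product over `i` (`Finset.prod_univ_sum`, three times; `Fintype.piFinset`):
`blkB = ∑_(μ : σ → Fin 2) ∑_(s ∈ box N0) ∑_(g ∈ box 2M) (∏_i S ..) * ∏_i (Ψ_i Ψ0_i)^(μ_i) * ∏_i X_i^(s_i) * ∏_i X0_i^(g_i)`. Insert `∏_i X_i^(s_i) = ∑_t r t s * E t (X)` (`aeval X` of `CenR.exp`; `s_i ≤ N0` for `s ∈ box`)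
and exchange the sums: the coefficient of `∏ (Ψ Ψ0)^μ * E t (X) * ∏ X0^g` is `Gam`. -/
def BLKX : Prop :=
  ∀ (K : Type) [Field K] [NumberField K] (σ : Type) [Fintype σ] [DecidableEq σ]
    (W : σ → Affine K) (B B' : AbsoluteValue K ℝ → ℝ) (D d c : ℕ) (J : Type)
    (f : J → MvPolynomial σ K) (Df M p e : ℕ)
    (S : σ → ℕ → Bool → Fin 2 → ℕ → ℕ → ℕ → ℕ → K) (T : Type) [Fintype T] (gr : T → ℕ)
    (E : T → MvPolynomial σ K) (r : T → (σ → ℕ) → K), ArS W B D M S →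
    CenR f Df p c d B' (N0 M e) T gr E r →
    ∀ (A : Type) [CommRing A] [Algebra K A] (X Ψ X0 Ψ0 : σ → A) (l : σ → Bool) (x : Ax σ M e),
      (∀ i, Ψ i ^ 2 = Bf (mapS A W i) (X i)) → (∀ i, Ψ0 i ^ 2 = Bf (mapS A W i) (X0 i)) →
      blkB (mapS A W) M e l X Ψ X0 Ψ0 x =
        ∑ μ : σ → Fin 2, ∑ t : T, ((∏ i, (Ψ i * Ψ0 i) ^ (μ i).val) * aeval X (E t)) *
          ∑ g ∈ box σ (2 * M), algebraMap K A (Gam S M e (r t) l μ g x) * ∏ i, X0 i ^ g i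

/-- **EXPB** (expansion of `P^λ`). Hypothesis allowed: BLKX.
PROOF. BLKX for every block with `X0 i = algebraMap K A (x0 i)`, so the sum over `g` is `algebraMap` of an element of `K`. Insert into `PB` and expand the product over `j` (`Finset.prod_univ_sum`), exchange the sums. -/
def EXPB : Prop :=
  ∀ (K : Type) [Field K] [NumberField K] (σ : Type) [Fintype σ] [DecidableEq σ]
    (W : σ → Affine K) (B B' : AbsoluteValue K ℝ → ℝ) (D d c : ℕ) (J : Type)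
    (f : J → MvPolynomial σ K) (Df n M δ p : ℕ) (e : Fin n → ℕ)
    (S : σ → ℕ → Bool → Fin 2 → ℕ → ℕ → ℕ → ℕ → K) (T : Fin n → Type) [∀ j, Fintype (T j)]
    (gr : ∀ j, T j → ℕ) (E : ∀ j, T j → MvPolynomial σ K) (r : ∀ j, T j → (σ → ℕ) → K),
    ArS W B D M S → (∀ j, CenR f Df p c d B' (N0 M (e j)) (T j) (gr j) (E j) (r j)) →
    ∀ (cc : Ix σ n M δ e → K) (x0 ψ0 : σ → K) (A : Type) [CommRing A] [Algebra K A]
      (X Ψ : Fin n → σ → A), OnB W X Ψ (cn A x0) (cn A ψ0) → ∀ lam : Fin n → σ → Bool,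
      PB (mapS A W) n M δ e (fun α => algebraMap K A (cc α)) lam X Ψ (cn A x0) (cn A ψ0) =
        ∑ μ : Fin n → σ → Fin 2, ∑ t : ∀ j, T j,
          (∏ j, ((∏ i, (Ψ j i * cn A ψ0 i) ^ (μ j i).val) * aeval (X j) (E j (t j)))) *
            algebraMap K A (BrB S n M δ e T r cc x0 lam μ t)

/-- **VANB** (a bad index kills the bracket). No hypotheses.
PROOF. Let `j` be the block with `gr j (t j) < k0 q_j`. Write the sum over `α = (α.1, β)` as the sum over the indices `α'` of the blocks `≠ j` (fibres of `α ↦ α.1` up to `Function.update`), over `x = α.1 j` and over `β`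
(compare SPL of `Helper76.SGC`, used in the landed VANT: `Pool/Agent/Helper54/SG2/VANT.lean`; e.g. sum over all `α0` with `α0 j = ` a fixed value, `Equiv.piSplitAt`/`Fintype.sum_equiv`). The factors of the blocks `≠ j` depend on `α'` only, so it is enough to show, for every `α0`:
`∑_x ∑_β cc (update α0 j x, β) * (∑_(g ∈ box 2M) Gam .. g x * ∏ x0^(g i)) * ∏ x0^(β i) = 0`. The left side is `∑_(k ∈ box (2M+δ)) G k * ∏ x0^(k i)` with `G k := ∑_x ∑_β ∑_(g ∈ box 2M, g + β = k) cc Gam`, and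
`∑_(k ∈ box (2M+δ)) ν u k * G k = ∑_x ∑_β cc ∑_g Gam * ν u (g + β) = 0` by `CondB` (`l = lam j`, `μ = μ j`); `g + β` is in `box (2M+δ)`. `RedD.red`. -/
def VANB : Prop :=
  ∀ (K : Type) [Field K] [NumberField K] (σ : Type) [Fintype σ] [DecidableEq σ]
    (n M δ k0 : ℕ) (e : Fin n → ℕ) (S : σ → ℕ → Bool → Fin 2 → ℕ → ℕ → ℕ → ℕ → K)
    (T : Fin n → Type) (gr : ∀ j, T j → ℕ) (r : ∀ j, T j → (σ → ℕ) → K) (U : Type)
    (ν : U → (σ → ℕ) → K) (x0 : σ → K) (H : ℝ), RedD x0 (2 * M + δ) ν H →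
    ∀ cc : Ix σ n M δ e → K, CondB S n M δ k0 e T gr r U ν cc →
    ∀ (lam : Fin n → σ → Bool) (μ : Fin n → σ → Fin 2) (t : ∀ j, T j) (j : Fin n),
      gr j (t j) < k0 * 4 ^ e j → BrB S n M δ e T r cc x0 lam μ t = 0

/-- **BRNB** (size of the bracket). No hypotheses.
PROOF. (Everything in `K`; `v` any absolute value; nonarchimedean: maximum instead of the sum, `cst v k = 1`; archimedean: `cst v k = k`. The general tool is NFB of `Helper77.SGC` in the frame `N x T := v x ≤ T`, FRPT.)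
`v (Gam S M (e j) (r j t) l μ g x) ≤ cst v ((N0+1)^m) * B' v^(N0+1) * B v^(q_j (M+1) m)`, and if `Gam ≠ 0` then some product `∏_i S ≠ 0`, so `g i + 2 μ_i ≤ 2M` for all `i` (`ArS.deg`). So each inner sum is of size
`≤ cst v ((2M+1)^m (N0+1)^m) * B'^(N0+1) * B^(q_j (M+1) m) * ∏_i M_v(x0 i)^(2M - 2 μ_(ji))`. The product over `j`, `v (cc) ≤ s`, `∏ x0^(β i)`: `≤ ∏ M_v(x0 i)^δ`. Sum over `α`: `cst v (#Ix)`.
`Fintype.card σ = m`, `N0 M e + 1 ≤ 4^e (2M+2)`. -/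
def BRNB : Prop :=
  ∀ (K : Type) [Field K] [NumberField K] (σ : Type) [Fintype σ] [DecidableEq σ]
    (W : σ → Affine K) (B B' : AbsoluteValue K ℝ → ℝ) (D d c : ℕ), (∀ v, 1 ≤ B v) →
    (∀ v, 1 ≤ B' v) → ∀ (J : Type) (f : J → MvPolynomial σ K) (Df n M δ p : ℕ), 1 ≤ δ →
    ∀ (e : Fin n → ℕ) (S : σ → ℕ → Bool → Fin 2 → ℕ → ℕ → ℕ → ℕ → K) (T : Fin n → Type)
      [∀ j, Fintype (T j)] (gr : ∀ j, T j → ℕ) (E : ∀ j, T j → MvPolynomial σ K)
      (r : ∀ j, T j → (σ → ℕ) → K), ArS W B D M S →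
      (∀ j, CenR f Df p c d B' (N0 M (e j)) (T j) (gr j) (E j) (r j)) →
      ∀ (cc : Ix σ n M δ e → K) (x0 : σ → K) (v : AbsoluteValue K ℝ) (s : ℝ), 0 ≤ s →
        (∀ α, v (cc α) ≤ s) →
        ∀ (lam : Fin n → σ → Bool) (μ : Fin n → σ → Fin 2) (t : ∀ j, T j),
        v (BrB S n M δ e T r cc x0 lam μ t) ≤
          cst v ((Nat.card (Ix σ n M δ e) : ℝ) *
            ∏ j : Fin n, ((2 * M + 1 : ℝ) * (N0 M (e j) + 1)) ^ Fintype.card σ) * s *
          (∏ j : Fin n, B' v ^ (N0 M (e j) + 1) * B v ^ (4 ^ e j * (M + 1) * Fintype.card σ)) *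
          ((∏ j : Fin n, ∏ i, Mv v (x0 i) ^ (2 * M - 2 * (μ j i).val)) * ∏ i, Mv v (x0 i) ^ δ)

/-- **CNTB** (the number of terms is `≤ C ^ sqB e`). No hypotheses.
PROOF. `#T j ≤ c^(N0+1) ≤ c^(4^(e j) (2M+2))`, `#(Fin n → σ → Fin 2) = 2^(n m)`, `#Ix = ∏_j (4^(e j) (M+1))^m δ^m`, `N0 + 1 ≤ 4^(e j) (2M+2)`, `4^e ≤ 4^(4^e)`, `∏_j x^(4^(e j)) = x^(sqB e)`, `sqB e ≥ n ≥ 1`. Compare CNTT (`Pool/Agent/Helper45/SG2/CNTT.lean`). -/
def CNTB : Prop :=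
  ∀ (σ : Type) [Fintype σ] [DecidableEq σ] (n M δ c : ℕ), 1 ≤ n → ∃ C : ℝ, 1 ≤ C ∧
    ∀ (e : Fin n → ℕ) (T : Fin n → Type) [∀ j, Fintype (T j)],
      (∀ j, Fintype.card (T j) ≤ c ^ (N0 M (e j) + 1)) →
      (Nat.card (Fin n → σ → Fin 2) : ℝ) * (Nat.card (∀ j, T j) : ℝ) *
        ((Nat.card (Ix σ n M δ e) : ℝ) *
          ∏ j : Fin n, ((2 * M + 1 : ℝ) * (N0 M (e j) + 1)) ^ Fintype.card σ) ≤ C ^ sqB e

/-- **KEYB** (the key inequality (4.3)). Hypotheses allowed: EXPB, VANB, BRNB, CNTB, NFB.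
PROOF. EXPB. The terms with a bad index vanish (VANB). For the others the norm of `∏_j (∏_i (Ψ_ji Ψ0_i)^(μ_ji)) E_(t_j)(X_j)` is (`CenR.nrm`, `N = N0 M (e j)`)
`≤ ∏_j [∏_i (b a_ji² b M_v(x0 i)²)^(μ_ji)] B'^(N0+1) (∏_i a_ji)^(N0) ρ_j^(gr j (t j))`, `ρ_j^(gr) ≤ ρ_j^(k0 q_j)`, `b^(2μ) ≤ b²`, `a_ji^(2μ) ≤ a_ji²`, and with BRNB the exponents of `M_v(x0 i)` add up to
`∑_j (2 μ_ji + 2M - 2 μ_ji) + δ = 2nM + δ` (`μ ≤ 1 ≤ M`). (`algebraMap` of the bracket: `NFr.const`.) `0 ≤ s` (`Ix` is not empty). The factor is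
`cst v (number) s b^(2nm) (B'^(2(N0+1)) B^(q_j (M+1) m) product over j)`; CNTB: `cst v (number) ≤ (cst v C)^(sqB e)`; `N0 + 1 ≤ q_j (2M+2)`. Place constant `cst v C * B' v^(4M+4) * B v^((M+1) m)`.
Compare KEYIT (`Pool/Agent/Helper36/SG2/KEYIT.lean`). -/
def KEYB : Prop :=
  ∀ (K : Type) [Field K] [NumberField K] (σ : Type) [Fintype σ] [DecidableEq σ]
    (W : σ → Affine K) (B B' : AbsoluteValue K ℝ → ℝ) (D d c : ℕ), PlC B → PlC B' →
    ∀ (J : Type) (f : J → MvPolynomial σ K) (Df n M δ k0 p : ℕ), 1 ≤ n → 1 ≤ M → 1 ≤ δ →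
    ∃ Bk : AbsoluteValue K ℝ → ℝ, PlC Bk ∧
    ∀ (e : Fin n → ℕ) (S : σ → ℕ → Bool → Fin 2 → ℕ → ℕ → ℕ → ℕ → K) (T : Fin n → Type)
      [∀ j, Fintype (T j)] (gr : ∀ j, T j → ℕ) (E : ∀ j, T j → MvPolynomial σ K)
      (r : ∀ j, T j → (σ → ℕ) → K) (U : Type) (ν : U → (σ → ℕ) → K) (x0 ψ0 : σ → K) (H : ℝ),
      ArS W B D M S → (∀ j, CenR f Df p c d B' (N0 M (e j)) (T j) (gr j) (E j) (r j)) →
      RedD x0 (2 * M + δ) ν H →
      ∀ cc : Ix σ n M δ e → K, CondB S n M δ k0 e T gr r U ν cc →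
        KeyB W f Df n M δ k0 x0 ψ0 e cc Bk

/-- **AUXB**: the auxiliary function. From ARRB, SIEB, KEYB and the centre data. -/
def AUXB : Prop :=
  ∀ (K : Type) [Field K] [NumberField K] (σ : Type) [Fintype σ] [DecidableEq σ]
    (W : σ → Affine K) (J : Type) (f : J → MvPolynomial σ K) (Df p c d : ℕ)
    (B' : AbsoluteValue K ℝ → ℝ), 0 < d → PlC B' → p ≤ Fintype.card σ →
    (∀ N : ℕ, ∃ (T : Type) (_ : Fintype T) (gr : T → ℕ) (E : T → MvPolynomial σ K)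
        (r : T → (σ → ℕ) → K), CenR f Df p c d B' N T gr E r) →
    ∀ (n M δ k0 S0 : ℕ), 1 ≤ n → 1 ≤ M → 1 ≤ δ →
    2 * n * 4 ^ Fintype.card σ * c * k0 ^ p * (2 * M + 2) ^ (Fintype.card σ - p) * S0 ≤
      (M + 1) ^ Fintype.card σ * δ ^ Fintype.card σ →
    ∃ (C : ℝ) (Bk : AbsoluteValue K ℝ → ℝ), 0 ≤ C ∧ PlC Bk ∧
      ∀ (e : Fin n → ℕ) (U : Type) [Fintype U] (ν : U → (σ → ℕ) → K) (x0 ψ0 : σ → K) (H : ℝ),
        Fintype.card U ≤ S0 → 0 ≤ H → RedD x0 (2 * M + δ) ν H →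
        ∃ cc : Ix σ n M δ e → K, cc ≠ 0 ∧ (∀ α, IsIntegral ℤ (cc α)) ∧
          (∀ α, NumberField.house (cc α) ≤ Real.exp (C * (sqB e + H))) ∧
          KeyB W f Df n M δ k0 x0 ψ0 e cc Bk

theorem auxb (hA : ARRB) (hS : SIEB) (hK : KEYB) : AUXB := by
  intro K _ _ σ _ _ W J f Df p c d B' hd hB' hp hcen n M δ k0 S0 hn hM hδ hcount
  obtain ⟨B, D, hB, hD, hA⟩ := hA K σ W
  obtain ⟨S, hS'⟩ := hA M
  obtain ⟨C, hC, hSi⟩ := hS K σ W B B' D d c (fun v => hB.one_le v) (fun v => hB'.one_le v) hD hd J f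
    Df n M δ k0 p S0 hn hδ hp hcount
  obtain ⟨Bk, hBk, hKk⟩ := hK K σ W B B' D d c hB hB' J f Df n M δ k0 p hn hM hδ
  refine ⟨C, Bk, hC, hBk, fun e U _ ν x0 ψ0 H hU hH hred => ?_⟩
  choose T hT gr E r hr using hcen
  obtain ⟨cc, h0, hi, hh, hc⟩ := hSi e S (fun j => T (N0 M (e j))) (fun j => gr (N0 M (e j)))
    (fun j => E (N0 M (e j))) (fun j => r (N0 M (e j))) U ν x0 H hS' (fun j => hr _) hU hH hred
  exact ⟨cc, h0, hi, hh, hKk e S (fun j => T (N0 M (e j))) (fun j => gr (N0 M (e j)))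
    (fun j => E (N0 M (e j))) (fun j => r (N0 M (e j))) U ν x0 ψ0 H hS' (fun j => hr _) hred cc hc⟩

end

end Pool.Agent.Helper68.VN
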